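import Pool.Agent.Q123.ET.Growth

/-!
# The hypotheses of the two questions give many elements
-/

namespace Q123.ET

open Finset Filter

/-- An asymptotic basis of order 2 has at least `√x / 2` elements below `x`. -/
lemma density_of_basis {A : Set ℕ} (h : ∀ᶠ n in atTop, 1 ≤ rep A n) :
    ∀ᶠ x : ℕ in atTop, 1 / 2 * √(x : ℝ) ≤ cnt A x := by
  classical
  obtain ⟨n0, hn0⟩ := eventually_atTop.1 h
  filter_upwards [eventually_ge_atTop (2 * n0)] with x hx
  set F : Finset ℕ := {a ∈ range x | a ∈ A} with hF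
  have hc : cnt A x = #F := by
    unfold cnt
    rw [hF]
  have hex : ∀ n ∈ Ico n0 x, ∃ p : ℕ × ℕ, p ∈ F ×ˢ F ∧ p.1 + p.2 = n := by
    intro n hn
    rw [mem_Ico] at hn
    have h1 := hn0 n hn.1
    unfold rep at h1
    obtain ⟨p, hp⟩ := card_pos.1 h1
    simp only [mem_filter, HasAntidiagonal.mem_antidiagonal] at hp
    refine ⟨p, ?_, hp.1⟩
    rw [mem_product]
    constructor
    · exact mem_filter.2 ⟨mem_range.2 (by omega), hp.2.1⟩
    · exact mem_filter.2 ⟨mem_range.2 (by omega), hp.2.2⟩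
  choose! f hf using hex
  have h1 : #(Ico n0 x) ≤ #(F ×ˢ F) := by
    refine card_le_card_of_injOn f (fun n hn => (hf n (mem_coe.1 hn)).1) ?_
    intro a ha b hb hab
    rw [← (hf a (mem_coe.1 ha)).2, ← (hf b (mem_coe.1 hb)).2, hab]
  rw [Nat.card_Ico, card_product, ← hc] at h1
  have h2 : x ≤ 2 * (cnt A x * cnt A x) := by omega
  have h3 : (x : ℝ) ≤ 2 * (cnt A x * cnt A x) := by exact_mod_cast h2
  have h4 : √(x : ℝ) ≤ 2 * cnt A x := by
    rw [Real.sqrt_le_left (by positivity)]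
    nlinarith [(Nat.cast_nonneg (cnt A x) : (0 : ℝ) ≤ _)]
  linarith

/-- An infinite set with `a_n ≤ C n ^ 2` has at least `c √x` elements below `x`. -/
lemma density_of_nth {A : Set ℕ} (hA : A.Infinite) {C : ℝ}
    (h : ∀ n ≥ 1, (Nat.nth (· ∈ A) (n - 1) : ℝ) ≤ C * (n : ℝ) ^ 2) :
    ∃ c : ℝ, 0 < c ∧ ∀ᶠ x : ℕ in atTop, c * √(x : ℝ) ≤ cnt A x := by
  classical
  set D : ℕ := ⌈C⌉₊ with hD
  have hCD : C ≤ D := Nat.le_ceil C
  refine ⟨1 / (2 * (D + 1)), by positivity, ?_⟩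
  filter_upwards [eventually_ge_atTop (D + 2)] with x hx
  set n := Nat.sqrt ((x - 1) / (D + 1)) with hn
  have h1 : n * n ≤ (x - 1) / (D + 1) := Nat.sqrt_le _
  have h2 : (x - 1) / (D + 1) < (n + 1) * (n + 1) := Nat.lt_succ_sqrt _
  have h3 : (D + 1) * (n * n) ≤ x - 1 := by
    have := Nat.mul_le_mul_left (D + 1) h1
    exact this.trans (Nat.mul_div_le _ _)
  have h4 : x - 1 < (D + 1) * ((n + 1) * (n + 1)) := by
    rw [mul_comm]
    exact (Nat.div_lt_iff_lt_mul (by omega)).1 h2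
  have hn1 : 1 ≤ n := by
    rw [hn, Nat.one_le_iff_ne_zero]
    intro h5
    rw [Nat.sqrt_eq_zero] at h5
    have : 1 ≤ (x - 1) / (D + 1) := by
      rw [Nat.one_le_div_iff (by omega)]
      omega
    omega
  have h5 : Nat.nth (· ∈ A) (n - 1) < x := by
    have h6 := h n hn1
    have h7 : C * (n : ℝ) ^ 2 ≤ D * (n : ℝ) ^ 2 := mul_le_mul_of_nonneg_right hCD (by positivity)
    have h8 : (Nat.nth (· ∈ A) (n - 1) : ℝ) ≤ ((D * n ^ 2 : ℕ) : ℝ) := by
      push_cast
      exact h6.trans h7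
    have h9 : Nat.nth (· ∈ A) (n - 1) ≤ D * n ^ 2 := by exact_mod_cast h8
    have h10 : D * n ^ 2 + n * n = (D + 1) * (n * n) := by ring
    have h11 : 1 ≤ n * n := Nat.mul_pos hn1 hn1
    omega
  have h6 : n - 1 < Nat.count (· ∈ A) x := by
    by_contra hcon
    have := (Nat.count_le_iff_le_nth (p := (· ∈ A)) hA).1 (not_lt.1 hcon)
    omega
  have h7 : Nat.count (· ∈ A) x = cnt A x := by
    rw [Nat.count_eq_card_filter_range]
    unfold cnt
    congr
  rw [h7] at h6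
  have h8 : n ≤ cnt A x := by omega
  have h9 : x ≤ (D + 1) * (2 * n * (2 * n)) := by
    have h10 : (n + 1) * (n + 1) ≤ 2 * n * (2 * n) := Nat.mul_le_mul (by omega) (by omega)
    have := Nat.mul_le_mul_left (D + 1) h10
    omega
  have h10 : (x : ℝ) ≤ (D + 1) * (2 * n * (2 * n)) := by exact_mod_cast h9
  have h11 : √(x : ℝ) ≤ 2 * (D + 1) * n := by
    rw [Real.sqrt_le_left (by positivity)]
    have hD0 : (0 : ℝ) ≤ D := by positivity
    nlinarith [mul_nonneg (mul_nonneg hD0 (by positivity : (0 : ℝ) ≤ D + 1))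
      (by positivity : (0 : ℝ) ≤ (n : ℝ) * n)]
  have h12 : (n : ℝ) ≤ cnt A x := by exact_mod_cast h8
  refine le_trans ?_ h12
  rw [one_div, inv_mul_le_iff₀ (by positivity)]
  exact h11

end Q123.ET
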