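import Mathlib

/-!
# Additive energy and coverings by few intervals on all scales
-/

namespace Q123.ET

open Finset

/-- the level of an integer in base `g`: `0` for `0`, and the number of base `g` digits otherwise -/
def lev (g : ℕ) (d : ℤ) : ℕ := if d = 0 then 0 else Nat.log g d.natAbs + 1

lemma lev_le_iff {g : ℕ} (hg : 2 ≤ g) (d : ℤ) (j : ℕ) : lev g d ≤ j ↔ d.natAbs < g ^ j := by
  unfold lev
  split_ifs with h
  · simp only [h, Int.natAbs_zero, Nat.zero_le, true_iff]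
    positivity
  · rw [Nat.add_one_le_iff, Nat.log_lt_iff_lt_pow (by omega) (by simpa using h)]

/-- the difference of a pair -/
def dif (p : ℕ × ℕ) : ℤ := (p.1 : ℤ) - p.2

/-- number of pairs with the given level of the difference -/
def qq (g : ℕ) (F : Finset ℕ) (i : ℕ) : ℕ := #{p ∈ F ×ˢ F | lev g (dif p) = i}

/-- number of pairs at distance less than `g ^ j` -/
def pp (g : ℕ) (F : Finset ℕ) (j : ℕ) : ℕ := #{p ∈ F ×ˢ F | (dif p).natAbs < g ^ j}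

/-- the additive energy -/
def en (F : Finset ℕ) : ℕ := #{q ∈ (F ×ˢ F) ×ˢ (F ×ˢ F) | dif q.1 = dif q.2}

/-- the part of the additive energy of one level -/
def ee (g : ℕ) (F : Finset ℕ) (i : ℕ) : ℕ :=
  #{q ∈ (F ×ˢ F) ×ˢ (F ×ˢ F) | dif q.1 = dif q.2 ∧ lev g (dif q.1) = i}

lemma pp_eq {g : ℕ} (hg : 2 ≤ g) (F : Finset ℕ) (j : ℕ) :
    pp g F j = ∑ i ∈ range (j + 1), qq g F i := by
  unfold pp qq
  rw [card_eq_sum_card_fiberwise (f := fun p => lev g (dif p)) (t := range (j + 1))]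
  · refine sum_congr rfl fun i hi => ?_
    congr 1
    ext p
    simp only [mem_filter, mem_product, mem_range] at hi ⊢
    constructor
    · rintro ⟨⟨h1, _⟩, h3⟩
      exact ⟨h1, h3⟩
    · rintro ⟨h1, h3⟩
      refine ⟨⟨h1, ?_⟩, h3⟩
      rw [← lev_le_iff hg]
      omega
  · intro p hp
    have hp' := (mem_filter.1 (mem_coe.1 hp)).2
    have : lev g (dif p) ≤ j := (lev_le_iff hg _ _).2 hp'
    simp only [coe_range, Set.mem_Iio]
    omega

lemma sq_card_le {α β : Type*} [DecidableEq β] (S : Finset α) (T : Finset β) (f : α → β)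
    (h : ∀ s ∈ S, f s ∈ T) : (#S) ^ 2 ≤ #T * #{q ∈ S ×ˢ S | f q.1 = f q.2} := by
  have h1 : #S = ∑ t ∈ T, #{s ∈ S | f s = t} :=
    card_eq_sum_card_fiberwise (fun s hs => by simpa using h s (by simpa using hs))
  have h2 : #{q ∈ S ×ˢ S | f q.1 = f q.2} = ∑ t ∈ T, #{s ∈ S | f s = t} ^ 2 := by
    rw [card_eq_sum_card_fiberwise (f := fun q => f q.1) (t := T)]
    · refine sum_congr rfl fun t _ => ?_
      rw [sq, ← card_product]
      congr 1
      ext q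
      simp only [mem_filter, mem_product]
      constructor
      · rintro ⟨⟨⟨h1, h2⟩, h3⟩, h4⟩
        exact ⟨⟨h1, h4⟩, h2, h3 ▸ h4⟩
      · rintro ⟨⟨h1, h2⟩, h3, h4⟩
        exact ⟨⟨⟨h1, h3⟩, h2.trans h4.symm⟩, h2⟩
    · intro q hq
      have := (mem_filter.1 (mem_coe.1 hq)).1
      exact mem_coe.2 (h _ (mem_product.1 this).1)
  rw [h2]
  conv_lhs => rw [h1]
  exact sq_sum_le_card_mul_sum_sq

lemma qq_sq_le {g : ℕ} (hg : 2 ≤ g) (F : Finset ℕ) (i : ℕ) :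
    (qq g F i) ^ 2 ≤ 2 * g ^ i * ee g F i := by
  have h := sq_card_le ((F ×ˢ F).filter fun p => lev g (dif p) = i)
    (Finset.Ioo (-(g ^ i : ℤ)) (g ^ i : ℤ)) dif (by
      intro p hp
      have h1 : lev g (dif p) ≤ i := (mem_filter.1 hp).2.le
      rw [lev_le_iff hg] at h1
      rw [Finset.mem_Ioo]
      have h2 : ((dif p).natAbs : ℤ) < (g : ℤ) ^ i := by exact_mod_cast h1
      rw [Int.natCast_natAbs] at h2
      exact abs_lt.1 h2)
  have hc : #(Finset.Ioo (-(g ^ i : ℤ)) (g ^ i : ℤ)) ≤ 2 * g ^ i := by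
    rw [Int.card_Ioo]
    have : ((g : ℤ) ^ i) = ((g ^ i : ℕ) : ℤ) := by push_cast; rfl
    rw [this]
    omega
  refine h.trans ?_
  refine Nat.mul_le_mul hc ?_
  unfold ee
  refine card_le_card ?_
  intro q hq
  simp only [mem_filter, mem_product] at hq ⊢
  tauto

lemma sum_ee_le (g : ℕ) (F : Finset ℕ) (J : ℕ) : ∑ i ∈ range J, ee g F i ≤ en F := by
  unfold ee en
  rw [← card_biUnion]
  · refine card_le_card ?_
    intro q hq
    simp only [mem_biUnion, mem_filter] at hq ⊢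
    obtain ⟨i, _, h1, h2, _⟩ := hq
    exact ⟨h1, h2⟩
  · intro i _ j _ hij
    rw [Function.onFun, disjoint_left]
    intro q h1 h2
    simp only [mem_filter] at h1 h2
    exact hij (h1.2.2.symm.trans h2.2.2)

lemma en_le (F : Finset ℕ) (K : ℕ)
    (hK : ∀ a ∈ F, ∀ b ∈ F, #{p ∈ F ×ˢ F | p.1 + p.2 = a + b} ≤ K) :
    en F ≤ (#F) ^ 2 * K := by
  unfold en
  rw [card_eq_sum_card_fiberwise (f := fun q => (q.1.1, q.2.2)) (t := F ×ˢ F)]
  · rw [sq, ← card_product, ← smul_eq_mul (#(F ×ˢ F))]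
    refine sum_le_card_nsmul _ _ _ ?_
    rintro ⟨a, b⟩ hab
    refine le_trans ?_ (hK a (mem_product.1 hab).1 b (mem_product.1 hab).2)
    refine card_le_card_of_injOn (fun q => (q.1.2, q.2.1)) ?_ ?_
    · rintro ⟨⟨x, c⟩, ⟨d, y⟩⟩ hq
      simp only [coe_filter, mem_filter, mem_product, Set.mem_ofPred_eq, Prod.mk.injEq, dif] at hq ⊢
      obtain ⟨⟨⟨⟨h1, h2⟩, h3, h4⟩, h5⟩, h6, h7⟩ := hq
      subst h6 h7
      exact ⟨⟨h2, h3⟩, by omega⟩
    · rintro ⟨⟨x, c⟩, ⟨d, y⟩⟩ hq ⟨⟨x', c'⟩, ⟨d', y'⟩⟩ hq' he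
      simp only [coe_filter, mem_filter, mem_product, Set.mem_ofPred_eq, Prod.mk.injEq] at hq hq' he ⊢
      obtain ⟨_, h6, h7⟩ := hq
      obtain ⟨_, h6', h7'⟩ := hq'
      subst h6 h7
      exact ⟨⟨h6'.symm, he.1⟩, he.2, h7'.symm⟩
  · rintro ⟨⟨x, c⟩, ⟨d, y⟩⟩ hq
    simp only [coe_filter, mem_product, Set.mem_ofPred_eq, coe_product] at hq ⊢
    exact ⟨hq.1.1.1, hq.1.2.2⟩

/-- A weighted discrete Hardy inequality. -/
lemma hardy (g : ℝ) (hg : 4 ≤ g) (q : ℕ → ℝ) (J : ℕ) :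
    ∑ j ∈ range J, (∑ i ∈ range (j + 1), q i) ^ 2 / g ^ j ≤ 4 * ∑ i ∈ range J, q i ^ 2 / g ^ i := by
  have hg0 : 0 < g := by linarith
  set B : ℕ → ℝ := fun J => ∑ i ∈ range J, q i ^ 2 / 2 ^ i with hB
  have hB0 : ∀ J, 0 ≤ B J := fun J => sum_nonneg fun i _ => by positivity
  have h1 : ∀ j, (∑ i ∈ range (j + 1), q i) ^ 2 ≤ 2 ^ (j + 1) * B (j + 1) := by
    intro j
    have h2 : (∑ i ∈ range (j + 1), q i) ^ 2 ≤
        (∑ i ∈ range (j + 1), (2 : ℝ) ^ i) * ∑ i ∈ range (j + 1), q i ^ 2 / 2 ^ i := by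
      refine sum_sq_le_sum_mul_sum_of_sq_le_mul _ (fun i _ => by positivity)
        (fun i _ => by positivity) (fun i _ => le_of_eq ?_)
      field_simp
    refine h2.trans ?_
    refine mul_le_mul_of_nonneg_right ?_ (hB0 (j + 1))
    rw [geom_sum_eq (by norm_num)]
    norm_num
  have h3 : ∀ J, ∑ j ∈ range J, 2 * (2 / g) ^ j * B (j + 1) + 4 * (2 / g) ^ J * B J ≤
      4 * ∑ i ∈ range J, q i ^ 2 / g ^ i := by
    intro J
    induction J with
    | zero => simp [hB]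
    | succ J ih =>
      rw [sum_range_succ, sum_range_succ]
      have e1 : B (J + 1) = B J + q J ^ 2 / 2 ^ J := by
        simp only [hB]
        rw [sum_range_succ]
      have e2 : q J ^ 2 / g ^ J = (2 / g) ^ J * (q J ^ 2 / 2 ^ J) := by
        rw [div_pow]
        field_simp
      have hr : 2 / g ≤ 1 / 2 := by
        rw [div_le_div_iff₀ hg0 (by norm_num)]
        linarith
      have hr0 : 0 < 2 / g := by positivity
      set r := 2 / g with hrdef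
      have hz : 0 ≤ q J ^ 2 / 2 ^ J := by positivity
      have hrJ : 0 < r ^ J := by positivity
      rw [e1, mul_add 4, e2, pow_succ r J]
      have k1 : r ^ J * r * (B J + q J ^ 2 / 2 ^ J) ≤ r ^ J * (1 / 2) * (B J + q J ^ 2 / 2 ^ J) := by
        refine mul_le_mul_of_nonneg_right ?_ (by linarith [hB0 J])
        exact mul_le_mul_of_nonneg_left hr hrJ.le
      nlinarith [mul_nonneg hrJ.le (hB0 J), mul_nonneg hrJ.le hz]
  have h4 : ∑ j ∈ range J, (∑ i ∈ range (j + 1), q i) ^ 2 / g ^ j ≤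
      ∑ j ∈ range J, 2 * (2 / g) ^ j * B (j + 1) := by
    refine sum_le_sum fun j _ => ?_
    rw [div_le_iff₀ (by positivity)]
    refine (h1 j).trans (le_of_eq ?_)
    rw [div_pow, pow_succ]
    field_simp
  have h5 : 0 ≤ 4 * (2 / g) ^ J * B J := mul_nonneg (by positivity) (hB0 J)
  linarith [h3 J]

/-- The set `F` is covered by `N` intervals of length `L`. -/
def Covered (F : Set ℕ) (L N : ℕ) : Prop :=
  ∃ t : Finset ℤ, #t ≤ N ∧ ∀ a ∈ F, ∃ s ∈ t, s ≤ (a : ℤ) ∧ (a : ℤ) < s + L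

lemma card_sq_le_pp {g : ℕ} (F : Finset ℕ) (j N : ℕ) (h : Covered (F : Set ℕ) (g ^ j) N) :
    (#F) ^ 2 ≤ N * pp g F j := by
  obtain ⟨t, ht, hF⟩ := h
  choose! f hf using hF
  have h1 := sq_card_le F t f (fun s hs => (hf s (by simpa using hs)).1)
  refine h1.trans (Nat.mul_le_mul ht ?_)
  unfold pp
  refine card_le_card ?_
  rintro ⟨a, b⟩ hab
  simp only [mem_filter, mem_product, dif] at hab ⊢
  obtain ⟨⟨ha, hb⟩, hab⟩ := hab
  refine ⟨⟨ha, hb⟩, ?_⟩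
  have h2 := (hf a (by simpa using ha)).2
  have h3 := (hf b (by simpa using hb)).2
  rw [hab] at h2
  have : ((g ^ j : ℕ) : ℤ) = ((g ^ j : ℕ) : ℤ) := rfl
  omega

/-- The energy inequality over all scales. -/
theorem energy_scales {g : ℕ} (hg : 4 ≤ g) (F : Finset ℕ) (K J : ℕ) (N : ℕ → ℕ)
    (hK : ∀ a ∈ F, ∀ b ∈ F, #{p ∈ F ×ˢ F | p.1 + p.2 = a + b} ≤ K)
    (hN : ∀ j < J, Covered (F : Set ℕ) (g ^ j) (N j)) :
    (#F : ℝ) ^ 2 * ∑ j ∈ range J, 1 / ((g : ℝ) ^ j * (N j : ℝ) ^ 2) ≤ 8 * K := by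
  have hg' : (4 : ℝ) ≤ g := by exact_mod_cast hg
  have hg0 : (0 : ℝ) < g := by linarith
  rcases Nat.eq_zero_or_pos #F with hF | hF
  · rw [hF]
    simp
  have hF' : (0 : ℝ) < #F := by exact_mod_cast hF
  have h1 : ∑ j ∈ range J, (#F : ℝ) ^ 4 / ((g : ℝ) ^ j * (N j : ℝ) ^ 2) ≤
      ∑ j ∈ range J, (∑ i ∈ range (j + 1), (qq g F i : ℝ)) ^ 2 / (g : ℝ) ^ j := by
    refine sum_le_sum fun j hj => ?_
    have h2 := card_sq_le_pp F j (N j) (hN j (mem_range.1 hj))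
    have hN0 : 0 < N j := by
      rcases Nat.eq_zero_or_pos (N j) with h | h
      · rw [h, zero_mul] at h2
        have : 0 < (#F) ^ 2 := by positivity
        omega
      · exact h
    have hN0' : (0 : ℝ) < N j := by exact_mod_cast hN0
    rw [pp_eq (by omega)] at h2
    have h3 : (#F : ℝ) ^ 2 ≤ N j * ∑ i ∈ range (j + 1), (qq g F i : ℝ) := by exact_mod_cast h2
    have h4 : ((#F : ℝ) ^ 2) ^ 2 ≤ (N j * ∑ i ∈ range (j + 1), (qq g F i : ℝ)) ^ 2 :=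
      pow_le_pow_left₀ (by positivity) h3 2
    rw [div_le_div_iff₀ (by positivity) (by positivity)]
    calc (#F : ℝ) ^ 4 * (g : ℝ) ^ j = ((#F : ℝ) ^ 2) ^ 2 * (g : ℝ) ^ j := by ring
      _ ≤ (N j * ∑ i ∈ range (j + 1), (qq g F i : ℝ)) ^ 2 * (g : ℝ) ^ j :=
        mul_le_mul_of_nonneg_right h4 (by positivity)
      _ = _ := by ring
  have h2 := hardy (g : ℝ) hg' (fun i => (qq g F i : ℝ)) J
  have h3 : ∑ i ∈ range J, (qq g F i : ℝ) ^ 2 / (g : ℝ) ^ i ≤ ∑ i ∈ range J, 2 * (ee g F i : ℝ) := by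
    refine sum_le_sum fun i _ => ?_
    rw [div_le_iff₀ (by positivity)]
    have := qq_sq_le (g := g) (by omega) F i
    have h4 : (qq g F i : ℝ) ^ 2 ≤ 2 * (g : ℝ) ^ i * ee g F i := by exact_mod_cast this
    linarith
  have h4 : ∑ i ∈ range J, 2 * (ee g F i : ℝ) ≤ 2 * (en F : ℝ) := by
    rw [← mul_sum]
    have : ∑ i ∈ range J, (ee g F i : ℝ) ≤ en F := by exact_mod_cast sum_ee_le g F J
    linarith
  have h5 : (en F : ℝ) ≤ (#F : ℝ) ^ 2 * K := by exact_mod_cast en_le F K hK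
  have h6 : ∑ j ∈ range J, (#F : ℝ) ^ 4 / ((g : ℝ) ^ j * (N j : ℝ) ^ 2) =
      (#F : ℝ) ^ 2 * ((#F : ℝ) ^ 2 * ∑ j ∈ range J, 1 / ((g : ℝ) ^ j * (N j : ℝ) ^ 2)) := by
    rw [← mul_assoc, mul_sum]
    refine sum_congr rfl fun j _ => ?_
    ring
  have h7 : (#F : ℝ) ^ 2 * ((#F : ℝ) ^ 2 * ∑ j ∈ range J, 1 / ((g : ℝ) ^ j * (N j : ℝ) ^ 2)) ≤
      (#F : ℝ) ^ 2 * (8 * K) := by
    rw [← h6]
    calc _ ≤ _ := h1
      _ ≤ _ := h2
      _ ≤ 4 * (2 * (en F : ℝ)) := by linarith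
      _ ≤ _ := by linarith
  exact le_of_mul_le_mul_left h7 (by positivity)

end Q123.ET
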