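import Mathlib

/-!
# Exponential sums over a finite set of natural numbers: moments and windows
-/

namespace Q123.ET

open Finset ZMod

variable {Q : ℕ} [NeZero Q]

/-- the exponential sum over `F` -/
noncomputable def SS (F : Finset ℕ) (t : ZMod Q) : ℂ := ∑ a ∈ F, stdAddChar ((a : ZMod Q) * t)

lemma norm_sq_sum {ι : Type*} (s : Finset ι) (x : ι → ZMod Q) :
    ((‖∑ i ∈ s, (stdAddChar (x i) : ℂ)‖ ^ 2 : ℝ) : ℂ) =
      ∑ i ∈ s, ∑ j ∈ s, (stdAddChar (x i - x j) : ℂ) := by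
  rw [Complex.ofReal_pow, ← Complex.mul_conj', map_sum, sum_mul_sum]
  refine sum_congr rfl fun i _ => sum_congr rfl fun j _ => ?_
  rw [sub_eq_add_neg, AddChar.map_add_eq_mul, AddChar.map_neg_eq_conj]

lemma char_sum {ι : Type*} (s : Finset ι) (x : ι → ZMod Q) :
    (stdAddChar (∑ i ∈ s, x i) : ℂ) = ∏ i ∈ s, (stdAddChar (x i) : ℂ) := by
  classical
  induction s using Finset.induction_on with
  | empty => simp
  | insert a s ha ih => rw [sum_insert ha, prod_insert ha, AddChar.map_add_eq_mul, ih]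

lemma SS_pow (F : Finset ℕ) (h : ℕ) (t : ZMod Q) :
    SS F t ^ h = ∑ u ∈ Fintype.piFinset (fun _ : Fin h => F),
      (stdAddChar (((∑ i, u i : ℕ) : ZMod Q) * t) : ℂ) := by
  unfold SS
  rw [sum_pow']
  refine sum_congr rfl fun u _ => ?_
  rw [Nat.cast_sum, sum_mul, char_sum]

/-- The moments of the exponential sum. -/
lemma moment (F : Finset ℕ) (h : ℕ) :
    ∑ t : ZMod Q, ‖SS F t‖ ^ (2 * h) = Q *
      (#{p ∈ (Fintype.piFinset (fun _ : Fin h => F)) ×ˢ (Fintype.piFinset (fun _ : Fin h => F)) |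
        ((∑ i, p.1 i : ℕ) : ZMod Q) = ((∑ i, p.2 i : ℕ) : ZMod Q)} : ℝ) := by
  classical
  have h1 : ((∑ t : ZMod Q, ‖SS F t‖ ^ (2 * h) : ℝ) : ℂ) =
      ((Q * (#{p ∈ (Fintype.piFinset (fun _ : Fin h => F)) ×ˢ
        (Fintype.piFinset (fun _ : Fin h => F)) |
        ((∑ i, p.1 i : ℕ) : ZMod Q) = ((∑ i, p.2 i : ℕ) : ZMod Q)} : ℝ) : ℝ) : ℂ) := by
    rw [Complex.ofReal_sum]
    have h2 : ∀ t : ZMod Q, ((‖SS F t‖ ^ (2 * h) : ℝ) : ℂ) =
        ∑ u ∈ Fintype.piFinset (fun _ : Fin h => F), ∑ v ∈ Fintype.piFinset (fun _ : Fin h => F),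
          (stdAddChar (t * (((∑ i, u i : ℕ) : ZMod Q) - ((∑ i, v i : ℕ) : ZMod Q))) : ℂ) := by
      intro t
      rw [mul_comm 2 h, pow_mul, ← norm_pow, SS_pow, norm_sq_sum]
      refine sum_congr rfl fun u _ => sum_congr rfl fun v _ => ?_
      congr 1
      ring
    simp only [h2]
    rw [sum_comm]
    have h3 : ∀ u ∈ Fintype.piFinset (fun _ : Fin h => F),
        ∑ t : ZMod Q, ∑ v ∈ Fintype.piFinset (fun _ : Fin h => F),
          (stdAddChar (t * (((∑ i, u i : ℕ) : ZMod Q) - ((∑ i, v i : ℕ) : ZMod Q))) : ℂ) =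
        ∑ v ∈ Fintype.piFinset (fun _ : Fin h => F),
          if ((∑ i, u i : ℕ) : ZMod Q) = ((∑ i, v i : ℕ) : ZMod Q) then (Q : ℂ) else 0 := by
      intro u _
      rw [sum_comm]
      refine sum_congr rfl fun v _ => ?_
      rw [AddChar.sum_mulShift _ (isPrimitive_stdAddChar Q), ZMod.card]
      simp only [sub_eq_zero]
      split_ifs <;> simp
    rw [sum_congr rfl h3, ← sum_product']
    rw [← sum_filter, sum_const, nsmul_eq_mul]
    push_cast
    ring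
  exact_mod_cast h1

/-- The mean of the squares over the differences of a family of points. -/
lemma kernel {ι : Type*} (F : Finset ℕ) (I : Finset ι) (x : ι → ZMod Q) :
    ∑ i ∈ I, ∑ j ∈ I, ‖SS F (x i - x j)‖ ^ 2 =
      ∑ a ∈ F, ∑ b ∈ F, ‖∑ i ∈ I, (stdAddChar (((a : ZMod Q) - (b : ZMod Q)) * x i) : ℂ)‖ ^ 2 := by
  have h1 : ((∑ i ∈ I, ∑ j ∈ I, ‖SS F (x i - x j)‖ ^ 2 : ℝ) : ℂ) =
      ((∑ a ∈ F, ∑ b ∈ F, ‖∑ i ∈ I, (stdAddChar (((a : ZMod Q) - (b : ZMod Q)) * x i) : ℂ)‖ ^ 2 : ℝ) : ℂ) := by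
    simp only [Complex.ofReal_sum]
    have h2 : ∀ i j, ((‖SS F (x i - x j)‖ ^ 2 : ℝ) : ℂ) = ∑ a ∈ F, ∑ b ∈ F,
        (stdAddChar (((a : ZMod Q) - (b : ZMod Q)) * (x i - x j)) : ℂ) := by
      intro i j
      unfold SS
      rw [norm_sq_sum]
      refine sum_congr rfl fun a _ => sum_congr rfl fun b _ => ?_
      congr 1
      ring
    have h3 : ∀ a b : ℕ, ((‖∑ i ∈ I, (stdAddChar (((a : ZMod Q) - (b : ZMod Q)) * x i) : ℂ)‖ ^ 2 : ℝ) : ℂ) =
        ∑ i ∈ I, ∑ j ∈ I, (stdAddChar (((a : ZMod Q) - (b : ZMod Q)) * (x i - x j)) : ℂ) := by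
      intro a b
      rw [norm_sq_sum]
      refine sum_congr rfl fun i _ => sum_congr rfl fun j _ => ?_
      congr 1
      ring
    simp only [h2, h3]
    calc _ = ∑ i ∈ I, ∑ a ∈ F, ∑ j ∈ I, ∑ b ∈ F,
            (stdAddChar (((a : ZMod Q) - (b : ZMod Q)) * (x i - x j)) : ℂ) :=
          sum_congr rfl fun i _ => sum_comm
      _ = ∑ a ∈ F, ∑ i ∈ I, ∑ j ∈ I, ∑ b ∈ F,
            (stdAddChar (((a : ZMod Q) - (b : ZMod Q)) * (x i - x j)) : ℂ) := sum_comm
      _ = ∑ a ∈ F, ∑ i ∈ I, ∑ b ∈ F, ∑ j ∈ I,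
            (stdAddChar (((a : ZMod Q) - (b : ZMod Q)) * (x i - x j)) : ℂ) :=
          sum_congr rfl fun a _ => sum_congr rfl fun i _ => sum_comm
      _ = _ := sum_congr rfl fun a _ => sum_comm
  exact_mod_cast h1

/-- A lower bound for the kernel of a window. -/
lemma kernel_lower {q q' T : ℕ} (hQ : Q = q * q') {L : ℕ} (hLT : 8 * L * T ≤ Q) {a b : ℕ}
    (hab : ((a : ℤ) - b).natAbs ≤ L) (hq : (q : ℤ) ∣ (a : ℤ) - b) :
    ((q * T : ℕ) : ℝ) ^ 2 / 2 ≤ ‖∑ p ∈ range T ×ˢ range q,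
      (stdAddChar (((a : ZMod Q) - (b : ZMod Q)) * ((p.1 : ZMod Q) + (p.2 : ZMod Q) * (q' : ZMod Q))) : ℂ)‖ ^ 2 := by
  have hQ0 : (0 : ℝ) < Q := by exact_mod_cast NeZero.pos Q
  have h1 : ∀ p ∈ range T ×ˢ range q, Real.sqrt 2 / 2 ≤
      (stdAddChar (((a : ZMod Q) - (b : ZMod Q)) * ((p.1 : ZMod Q) + (p.2 : ZMod Q) * (q' : ZMod Q))) : ℂ).re := by
    rintro ⟨u, s⟩ hp
    rw [mem_product, mem_range] at hp
    have h2 : ((a : ZMod Q) - (b : ZMod Q)) * ((u : ZMod Q) + (s : ZMod Q) * (q' : ZMod Q)) =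
        ((((a : ℤ) - b) * u : ℤ) : ZMod Q) := by
      obtain ⟨m, hm⟩ := hq
      have h3 : ((a : ZMod Q) - (b : ZMod Q)) = ((q * m : ℤ) : ZMod Q) := by
        rw [← hm]
        push_cast
        rfl
      rw [hm, h3]
      push_cast
      have h4 : (q : ZMod Q) * q' = 0 := by
        rw [← Nat.cast_mul, ← hQ]
        simp
      linear_combination ((m : ZMod Q) * s) * h4
    rw [h2, stdAddChar_coe]
    have h3 : (2 * (Real.pi : ℂ) * Complex.I * (((((a : ℤ) - b) * u : ℤ)) : ℂ) / (Q : ℂ)) =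
        ((2 * Real.pi * ((((a : ℤ) - b) * u : ℤ) : ℝ) / Q : ℝ) : ℂ) * Complex.I := by
      push_cast
      ring
    rw [h3, Complex.exp_ofReal_mul_I_re, ← Real.cos_pi_div_four]
    set y : ℝ := 2 * Real.pi * ((((a : ℤ) - b) * u : ℤ) : ℝ) / Q with hy
    have h5 : |y| ≤ Real.pi / 4 := by
      rw [hy, abs_div, abs_mul, abs_of_pos (by positivity : (0 : ℝ) < 2 * Real.pi),
        abs_of_pos hQ0, div_le_iff₀ hQ0]
      have h6 : |((((a : ℤ) - b) * u : ℤ) : ℝ)| ≤ L * T := by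
        push_cast
        rw [abs_mul]
        have h7 : |(a : ℝ) - b| ≤ L := by
          have : (((a : ℤ) - b).natAbs : ℝ) ≤ L := by exact_mod_cast hab
          rw [Nat.cast_natAbs] at this
          push_cast at this
          exact this
        have h8 : |(u : ℝ)| ≤ T := by
          rw [abs_of_nonneg (by positivity)]
          exact_mod_cast hp.1.le
        exact mul_le_mul h7 h8 (abs_nonneg _) (by positivity)
      have h9 : (8 * L * T : ℝ) ≤ Q := by exact_mod_cast hLT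
      have := Real.pi_pos
      nlinarith
    rw [← Real.cos_abs y]
    exact Real.cos_le_cos_of_nonneg_of_le_pi (abs_nonneg _) (by linarith [Real.pi_pos]) h5
  have h2 : ((q * T : ℕ) : ℝ) * (Real.sqrt 2 / 2) ≤ (∑ p ∈ range T ×ˢ range q,
      (stdAddChar (((a : ZMod Q) - (b : ZMod Q)) * ((p.1 : ZMod Q) + (p.2 : ZMod Q) * (q' : ZMod Q))) : ℂ)).re := by
    rw [Complex.re_sum]
    calc ((q * T : ℕ) : ℝ) * (Real.sqrt 2 / 2) = ∑ p ∈ range T ×ˢ range q, Real.sqrt 2 / 2 := by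
          rw [sum_const, card_product, card_range, card_range, nsmul_eq_mul, mul_comm q T]
      _ ≤ _ := sum_le_sum h1
  have h3 := (h2.trans (Complex.re_le_norm _))
  have h4 := pow_le_pow_left₀ (by positivity) h3 2
  refine le_trans (le_of_eq ?_) h4
  rw [mul_pow, div_pow, Real.sq_sqrt (by norm_num)]
  ring

/-- The window of frequencies near the multiples of `q'`. -/
noncomputable def win (Q q q' T : ℕ) : Finset (ZMod Q) :=
  (Finset.Ioo (-(T : ℤ)) T ×ˢ range q).image (fun p => (p.1 : ZMod Q) + (p.2 : ZMod Q) * (q' : ZMod Q))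

omit [NeZero Q] in
lemma card_win_le (q q' T : ℕ) : #(win Q q q' T) ≤ 2 * (q * T) := by
  unfold win
  refine card_image_le.trans ?_
  rw [card_product, Int.card_Ioo, card_range]
  have : ((T : ℤ) - -(T : ℤ) - 1).toNat ≤ 2 * T := by omega
  calc _ ≤ 2 * T * q := Nat.mul_le_mul this le_rfl
    _ = _ := by ring

lemma win_subset {q0 q1 q0' q1' T0 T1 : ℕ} (h0 : Q = q0 * q0') (h1 : Q = q1 * q1')
    (hq : q1 ∣ q0) (hT : T1 ≤ T0) : win Q q1 q1' T1 ⊆ win Q q0 q0' T0 := by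
  have hQ0 : 0 < Q := NeZero.pos Q
  obtain ⟨m, rfl⟩ := hq
  have hq1 : 0 < q1 := Nat.pos_of_ne_zero fun h => by simp [h] at h1; omega
  have hm : 0 < m := Nat.pos_of_ne_zero fun h => by simp [h] at h0; omega
  have e : q1' = m * q0' := by
    have : q1 * q1' = q1 * (m * q0') := by rw [← h1, h0]; ring
    exact Nat.eq_of_mul_eq_mul_left hq1 this
  intro t ht
  unfold win at ht ⊢
  simp only [mem_image, mem_product, Finset.mem_Ioo, mem_range, Prod.exists] at ht ⊢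
  obtain ⟨r, s, ⟨⟨h3, h4⟩, h5⟩, rfl⟩ := ht
  refine ⟨r, s * m, ⟨⟨by omega, by omega⟩, Nat.mul_lt_mul_of_pos_right h5 hm⟩, ?_⟩
  rw [e]
  push_cast
  ring

/-- The sum of the squares over a window is large if many pairs are in the same window. -/
lemma window_lower (F : Finset ℕ) {q q' T L : ℕ} (hQ : Q = q * q') (hLT : 8 * L * T ≤ Q)
    (hqT : 1 ≤ q * T) (hTq : T ≤ q') :
    ((q * T : ℕ) : ℝ) / 2 * (#{p ∈ F ×ˢ F | ((p.1 : ℤ) - p.2).natAbs ≤ L ∧
      (q : ℤ) ∣ (p.1 : ℤ) - p.2} : ℝ) ≤ ∑ t ∈ win Q q q' T, ‖SS F t‖ ^ 2 := by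
  classical
  have hQ0 : 0 < Q := NeZero.pos Q
  have hq0 : 0 < q := Nat.pos_of_ne_zero fun h => by simp [h] at hQ; omega
  set I := range T ×ˢ range q with hI
  set x : ℕ × ℕ → ZMod Q := fun p => (p.1 : ZMod Q) + (p.2 : ZMod Q) * (q' : ZMod Q) with hx
  have hk := kernel F I x
  have hinj : Set.InjOn x I := by
    rintro ⟨u, s⟩ h1 ⟨u', s'⟩ h2 he
    have h1' := mem_product.1 (mem_coe.1 h1)
    have h2' := mem_product.1 (mem_coe.1 h2)
    simp only [mem_range] at h1' h2'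
    simp only [hx] at he
    have he' : ((u + s * q' : ℕ) : ZMod Q) = ((u' + s' * q' : ℕ) : ZMod Q) := by
      push_cast
      exact he
    have hlt : ∀ u s : ℕ, u < T → s < q → u + s * q' < Q := by
      intro u s hu hs
      have : (s + 1) * q' ≤ q * q' := Nat.mul_le_mul_right _ hs
      rw [hQ]
      nlinarith
    rw [ZMod.natCast_eq_natCast_iff, Nat.ModEq, Nat.mod_eq_of_lt (hlt u s h1'.1 h1'.2),
      Nat.mod_eq_of_lt (hlt u' s' h2'.1 h2'.2)] at he'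
    have hu : u < q' := lt_of_lt_of_le h1'.1 hTq
    have hu' : u' < q' := lt_of_lt_of_le h2'.1 hTq
    have e1 : s = s' := by
      have a1 : (u + s * q') / q' = s := by
        rw [Nat.add_mul_div_right _ _ (by omega), Nat.div_eq_of_lt hu, zero_add]
      have a2 : (u' + s' * q') / q' = s' := by
        rw [Nat.add_mul_div_right _ _ (by omega), Nat.div_eq_of_lt hu', zero_add]
      rw [← a1, ← a2, he']
    subst e1
    rw [Prod.mk.injEq]
    exact ⟨by omega, rfl⟩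
  have hmem : ∀ p ∈ I, ∀ p' ∈ I, x p - x p' ∈ win Q q q' T := by
    rintro ⟨u, s⟩ h1 ⟨u', s'⟩ h2
    have h1' := mem_product.1 h1
    have h2' := mem_product.1 h2
    simp only [mem_range] at h1' h2'
    unfold win
    simp only [mem_image, mem_product, Finset.mem_Ioo, mem_range, Prod.exists]
    refine ⟨(u : ℤ) - u', (((s : ℤ) - s') % q).toNat, ⟨⟨by omega, by omega⟩, ?_⟩, ?_⟩
    · have h3 := Int.emod_lt_of_pos ((s : ℤ) - s') (show (0 : ℤ) < q by exact_mod_cast hq0)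
      have h4 := Int.emod_nonneg ((s : ℤ) - s') (show (q : ℤ) ≠ 0 by exact_mod_cast hq0.ne')
      omega
    · have h4 := Int.emod_nonneg ((s : ℤ) - s') (show (q : ℤ) ≠ 0 by exact_mod_cast hq0.ne')
      have h5 : (((((s : ℤ) - s') % q).toNat : ℕ) : ZMod Q) = ((((s : ℤ) - s') % q : ℤ) : ZMod Q) := by
        have : (((((s : ℤ) - s') % q).toNat : ℕ) : ℤ) = ((s : ℤ) - s') % q := Int.toNat_of_nonneg h4
        have h := congrArg (fun z : ℤ => (z : ZMod Q)) this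
        simp only [Int.cast_natCast] at h
        exact h
      rw [h5]
      have h6 : ((s : ℤ) - s') % q = ((s : ℤ) - s') - q * (((s : ℤ) - s') / q) := by
        rw [Int.emod_def]
      rw [h6]
      simp only [hx]
      push_cast
      have h7 : (q : ZMod Q) * q' = 0 := by
        rw [← Nat.cast_mul, ← hQ]
        simp
      linear_combination (-(((((s : ℤ) - s') / q : ℤ)) : ZMod Q)) * h7
  -- upper bound for the kernel sum
  have hup : ∑ i ∈ I, ∑ j ∈ I, ‖SS F (x i - x j)‖ ^ 2 ≤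
      ((q * T : ℕ) : ℝ) * ∑ t ∈ win Q q q' T, ‖SS F t‖ ^ 2 := by
    have hcI : #I = q * T := by
      rw [hI, card_product, card_range, card_range, mul_comm]
    rw [← hcI, ← nsmul_eq_mul]
    refine sum_le_card_nsmul _ _ _ fun i hi => ?_
    have h1 : ∑ j ∈ I, ‖SS F (x i - x j)‖ ^ 2 =
        ∑ t ∈ I.image (fun j => x i - x j), ‖SS F t‖ ^ 2 := by
      rw [sum_image]
      intro j hj j' hj' he
      exact hinj hj hj' (by simpa using he)
    rw [h1]
    refine sum_le_sum_of_subset_of_nonneg ?_ (fun _ _ _ => by positivity)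
    intro t ht
    obtain ⟨j, hj, rfl⟩ := mem_image.1 ht
    exact hmem i hi j hj
  -- lower bound
  have hlo : (#{p ∈ F ×ˢ F | ((p.1 : ℤ) - p.2).natAbs ≤ L ∧
      (q : ℤ) ∣ (p.1 : ℤ) - p.2} : ℝ) * (((q * T : ℕ) : ℝ) ^ 2 / 2) ≤
      ∑ i ∈ I, ∑ j ∈ I, ‖SS F (x i - x j)‖ ^ 2 := by
    rw [hk, ← nsmul_eq_mul, ← sum_const, ← sum_product']
    refine le_trans (sum_le_sum fun p hp => ?_)
      (sum_le_sum_of_subset_of_nonneg (filter_subset _ _) (fun _ _ _ => by positivity))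
    have hp' := (mem_filter.1 hp).2
    exact kernel_lower hQ hLT hp'.1 hp'.2
  have hqT' : (0 : ℝ) < ((q * T : ℕ) : ℝ) := by exact_mod_cast hqT
  have h := hlo.trans hup
  have h' : ((q * T : ℕ) : ℝ) * (((q * T : ℕ) : ℝ) / 2 * (#{p ∈ F ×ˢ F |
      ((p.1 : ℤ) - p.2).natAbs ≤ L ∧ (q : ℤ) ∣ (p.1 : ℤ) - p.2} : ℝ)) ≤
      ((q * T : ℕ) : ℝ) * ∑ t ∈ win Q q q' T, ‖SS F t‖ ^ 2 := by
    refine le_trans (le_of_eq ?_) h
    ring
  exact le_of_mul_le_mul_left h' hqT'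

end Q123.ET
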