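import Pool.Agent.Q123.ET.Scales

/-!
# The representation function of homogeneous sets
-/

namespace Q123.ET

open Finset Filter

lemma covered_mono {F : Set ℕ} {L N N' : ℕ} (h : Covered F L N) (hN : N ≤ N') : Covered F L N' := by
  obtain ⟨t, ht, h⟩ := h
  exact ⟨t, ht.trans hN, h⟩

/-- A discrete Gronwall inequality. -/
lemma gronwall (u : ℕ → ℝ) (R : ℝ) (hR : 0 < R) (m k : ℕ) (hu : ∀ i, m ≤ i → 0 < u i)
    (h : ∀ i, m ≤ i → i ≤ k → u i * ∑ l ∈ Icc m i, 1 / u l ≤ R) :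
    ∀ i, m ≤ i → i ≤ k → 1 / u m * (1 + 1 / R) ^ (i - m) ≤ ∑ l ∈ Icc m i, 1 / u l := by
  intro i hi
  induction i, hi using Nat.le_induction with
  | base => intro _; simp
  | succ i hi ih =>
    intro hik
    have h1 := ih (by omega)
    have h2 := h (i + 1) (by omega) hik
    have h3 : ∑ l ∈ Icc m (i + 1), 1 / u l = ∑ l ∈ Icc m i, 1 / u l + 1 / u (i + 1) := by
      rw [← Finset.insert_Icc_right_eq_Icc_add_one (by omega)]
      rw [sum_insert (by simp), add_comm]
    have hu1 : 0 < u (i + 1) := hu _ (by omega)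
    have h4 : 0 ≤ ∑ l ∈ Icc m i, 1 / u l :=
      sum_nonneg fun l hl => by
        have := hu l (mem_Icc.1 hl).1
        positivity
    rw [h3] at h2 ⊢
    have h5 : (∑ l ∈ Icc m i, 1 / u l) / R ≤ 1 / u (i + 1) := by
      rw [div_le_div_iff₀ hR hu1]
      have : u (i + 1) * (1 / u (i + 1)) = 1 := by field_simp
      nlinarith
    have h6 : i + 1 - m = (i - m) + 1 := by omega
    rw [h6, pow_succ]
    calc 1 / u m * ((1 + 1 / R) ^ (i - m) * (1 + 1 / R))
        = (1 / u m * (1 + 1 / R) ^ (i - m)) * (1 + 1 / R) := by ring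
      _ ≤ (∑ l ∈ Icc m i, 1 / u l) * (1 + 1 / R) := by
        refine mul_le_mul_of_nonneg_right h1 (by positivity)
      _ = ∑ l ∈ Icc m i, 1 / u l + (∑ l ∈ Icc m i, 1 / u l) / R := by ring
      _ ≤ _ := by linarith

/-- the normalised square of the counting function -/
noncomputable def uu (A : Set ℕ) (i : ℕ) : ℝ := (cnt A (4 ^ i) : ℝ) ^ 2 / 4 ^ i

lemma uu_sum_le {A : Set ℕ} {m : ℕ}
    (hB : ∀ i j : ℕ, j ≤ i → Covered (A ∩ Set.Iio (4 ^ i)) (4 ^ j) (4 ^ m * cnt A (4 ^ (m + i - j))))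
    {m0 i : ℕ} (hm : m ≤ m0) (hu : ∀ l, m0 ≤ l → 0 < uu A l) (K : ℝ)
    (hK : ∀ n < 2 * 4 ^ i, (rep A n : ℝ) ≤ K) :
    uu A i * ∑ l ∈ Icc m0 i, 1 / uu A l ≤ 8 * 4 ^ (3 * m) * K := by
  have h1 := scales (g := 4) le_rfl A (x := 4 ^ i) (Nat.one_le_pow _ _ (by norm_num)) (i + 1) K
    (fun j => 4 ^ m * cnt A (4 ^ (m + i - j))) hK
    (fun j hj => hB i j (by omega))
  have h2 : ∑ l ∈ Icc m0 i, 1 / (4 ^ (3 * m) * 4 ^ i * uu A l) ≤ ∑ j ∈ range (i + 1),
      1 / (((4 : ℕ) : ℝ) ^ j * (((4 ^ m * cnt A (4 ^ (m + i - j)) : ℕ) : ℝ)) ^ 2) := by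
    have h3 : ∑ l ∈ Icc m0 i, 1 / (4 ^ (3 * m) * 4 ^ i * uu A l) =
        ∑ j ∈ (Icc m0 i).image (fun l => m + i - l),
          1 / (((4 : ℕ) : ℝ) ^ j * (((4 ^ m * cnt A (4 ^ (m + i - j)) : ℕ) : ℝ)) ^ 2) := by
      rw [sum_image]
      · refine sum_congr rfl fun l hl => ?_
        have hl' := mem_Icc.1 hl
        have e1 : m + i - (m + i - l) = l := by omega
        rw [e1]
        congr 1
        unfold uu
        push_cast
        have e2 : (4 : ℝ) ^ (m + i - l) * 4 ^ l = 4 ^ m * 4 ^ i := by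
          rw [← pow_add, ← pow_add]
          congr 1
          omega
        have e3 : (4 : ℝ) ^ (3 * m) = 4 ^ m * (4 ^ m) ^ 2 := by
          rw [← pow_mul, ← pow_add]
          congr 1
          ring
        rw [e3]
        have e4 : (4 : ℝ) ^ (m + i - l) = 4 ^ m * 4 ^ i / 4 ^ l := by
          rw [← e2]
          field_simp
        rw [e4]
        field_simp
      · intro a ha b hb hab
        have ha' := mem_Icc.1 (mem_coe.1 ha)
        have hb' := mem_Icc.1 (mem_coe.1 hb)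
        simp only at hab
        omega
    rw [h3]
    refine sum_le_sum_of_subset_of_nonneg ?_ (fun j _ _ => by positivity)
    intro j hj
    obtain ⟨l, hl, rfl⟩ := mem_image.1 hj
    have hl' := mem_Icc.1 hl
    rw [mem_range]
    omega
  have h4 : (cnt A (4 ^ i) : ℝ) ^ 2 = 4 ^ i * uu A i := by
    unfold uu
    field_simp
  have h5 : uu A i * ∑ l ∈ Icc m0 i, 1 / uu A l = 4 ^ (3 * m) * ((cnt A (4 ^ i) : ℝ) ^ 2 *
      ∑ l ∈ Icc m0 i, 1 / (4 ^ (3 * m) * 4 ^ i * uu A l)) := by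
    rw [h4, mul_sum, mul_sum, mul_sum]
    refine sum_congr rfl fun l hl => ?_
    have := hu l (mem_Icc.1 hl).1
    field_simp
  rw [h5]
  have h6 : (cnt A (4 ^ i) : ℝ) ^ 2 * ∑ l ∈ Icc m0 i, 1 / (4 ^ (3 * m) * 4 ^ i * uu A l) ≤ 8 * K :=
    (mul_le_mul_of_nonneg_left h2 (by positivity)).trans h1
  calc _ ≤ 4 ^ (3 * m) * (8 * K) := mul_le_mul_of_nonneg_left h6 (by positivity)
    _ = _ := by ring

/-- The growth of the representation function of a homogeneous set. -/
theorem growth {A : Set ℕ} (hA : Homogeneous A) {c : ℝ} (hc : 0 < c)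
    (hd : ∀ᶠ x : ℕ in atTop, c * √x ≤ cnt A x) :
    ∃ c' : ℝ, 0 < c' ∧ ∀ᶠ x : ℕ in atTop, ∃ n < 2 * x,
      c' * Real.log x ≤ rep A n * Real.log (Real.log x) := by
  obtain ⟨B, hB⟩ := hA
  -- the covering property with powers of 4
  have hB' : ∀ i j : ℕ, j ≤ i →
      Covered (A ∩ Set.Iio (4 ^ i)) (4 ^ j) (4 ^ B * cnt A (4 ^ (B + i - j))) := by
    intro i j hj
    refine covered_mono (hB (4 ^ i) (4 ^ j) (Nat.one_le_pow _ _ (by norm_num))
      (Nat.pow_le_pow_right (by norm_num) hj)) ?_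
    have hB4 : B ≤ 4 ^ B := (Nat.lt_pow_self (by norm_num)).le
    refine Nat.mul_le_mul hB4 (cnt_mono A ?_)
    rw [Nat.pow_div hj (by norm_num)]
    have : B + i - j = B + (i - j) := by omega
    rw [this, pow_add]
    exact Nat.mul_le_mul hB4 le_rfl
  obtain ⟨x0, hx0⟩ := eventually_atTop.1 hd
  set m0 := max B x0 with hm0
  have hu : ∀ l, m0 ≤ l → c ^ 2 ≤ uu A l := by
    intro l hl
    have h1 : x0 ≤ 4 ^ l := (le_trans (le_max_right B x0) hl).trans
      (Nat.lt_pow_self (by norm_num)).le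
    have h2 := hx0 _ h1
    unfold uu
    rw [le_div_iff₀ (by positivity)]
    have h3 := pow_le_pow_left₀ (by positivity) h2 2
    rw [mul_pow, Real.sq_sqrt (by positivity)] at h3
    push_cast at h3
    exact h3
  have hu0 : ∀ l, m0 ≤ l → 0 < uu A l := fun l hl => lt_of_lt_of_le (by positivity) (hu l hl)
  set S : ℝ := 8 * 4 ^ (3 * B) with hS
  have hS0 : 0 < S := by positivity
  set C4 : ℝ := Real.log (4 ^ m0 / c ^ 2) with hC4
  refine ⟨1 / (8 * S), by positivity, ?_⟩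
  -- large x
  have hlog : Tendsto (fun x : ℕ => Real.log x) atTop atTop :=
    Real.tendsto_log_atTop.comp tendsto_natCast_atTop_atTop
  have hloglog : Tendsto (fun x : ℕ => Real.log (Real.log x)) atTop atTop :=
    Real.tendsto_log_atTop.comp hlog
  have hlo : ∀ᶠ X : ℝ in atTop, 16 * Real.log X ≤ X := by
    have h := Real.isLittleO_log_id_atTop.bound (show (0 : ℝ) < 1 / 16 by norm_num)
    filter_upwards [h, eventually_ge_atTop 1] with X h1 h2
    rw [Real.norm_of_nonneg (Real.log_nonneg h2), id, Real.norm_of_nonneg (by linarith)] at h1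
    linarith
  filter_upwards [hlog.eventually hlo, hlog.eventually (eventually_ge_atTop (8 * (m0 + 4) : ℝ)),
    hloglog.eventually (eventually_ge_atTop C4), hloglog.eventually (eventually_ge_atTop 1),
    eventually_ge_atTop 1, eventually_ge_atTop (4 ^ m0)] with x hx1 hx2 hx3 hx4 hx5 hx6
  by_contra hcon
  push Not at hcon
  set X := Real.log x with hX
  set ℓ := Real.log X with hℓ
  have hℓ0 : 0 < ℓ := by linarith
  have hX0 : 0 < X := by
    have : (0 : ℝ) ≤ m0 := by positivity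
    linarith
  set K : ℝ := 1 / (8 * S) * X / ℓ with hKdef
  have hK0 : 0 < K := by positivity
  have hK : ∀ n < 2 * x, (rep A n : ℝ) ≤ K := by
    intro n hn
    have := hcon n hn
    rw [hKdef, le_div_iff₀ hℓ0]
    exact this.le
  set k := Nat.log 4 x with hk
  have hk1 : 4 ^ k ≤ x := Nat.pow_log_le_self 4 (by omega)
  have hk2 : x < 4 ^ (k + 1) := Nat.lt_pow_succ_log_self (by norm_num) x
  have hkm : m0 ≤ k := by
    rw [hk]
    exact Nat.le_log_of_pow_le (by norm_num) hx6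
  have hR : 0 < S * K := by positivity
  have h1 := gronwall (uu A) (S * K) hR m0 k hu0 (fun i _ hik => by
    refine uu_sum_le hB' (le_max_left B x0) hu0 K (fun n hn => hK n ?_)
    have : 4 ^ i ≤ 4 ^ k := Nat.pow_le_pow_right (by norm_num) hik
    omega) k hkm le_rfl
  -- upper bound for the sum
  have h2 : ∑ l ∈ Icc m0 k, 1 / uu A l ≤ (k + 1) / c ^ 2 := by
    calc ∑ l ∈ Icc m0 k, 1 / uu A l ≤ ∑ l ∈ Icc m0 k, 1 / c ^ 2 :=
          sum_le_sum fun l hl => one_div_le_one_div_of_le (by positivity) (hu l (mem_Icc.1 hl).1)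
      _ = #(Icc m0 k) * (1 / c ^ 2) := by rw [sum_const, nsmul_eq_mul]
      _ ≤ (k + 1) * (1 / c ^ 2) := by
        refine mul_le_mul_of_nonneg_right ?_ (by positivity)
        have : #(Icc m0 k) ≤ k + 1 := by
          rw [Nat.card_Icc]
          omega
        exact_mod_cast this
      _ = _ := by ring
  have h3 : (1 : ℝ) / 4 ^ m0 ≤ 1 / uu A m0 := by
    refine one_div_le_one_div_of_le (hu0 m0 le_rfl) ?_
    unfold uu
    rw [div_le_iff₀ (by positivity)]
    have : (cnt A (4 ^ m0) : ℝ) ≤ 4 ^ m0 := by exact_mod_cast cnt_le A (4 ^ m0)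
    nlinarith [(Nat.cast_nonneg (cnt A (4 ^ m0)) : (0 : ℝ) ≤ _)]
  have h4 : (1 + 1 / (S * K)) ^ (k - m0) ≤ 4 ^ m0 / c ^ 2 * (k + 1) := by
    have h5 : (1 : ℝ) / 4 ^ m0 * (1 + 1 / (S * K)) ^ (k - m0) ≤ (k + 1) / c ^ 2 :=
      (mul_le_mul_of_nonneg_right h3 (by positivity)).trans (h1.trans h2)
    rw [one_div, inv_mul_le_iff₀ (by positivity)] at h5
    calc _ ≤ _ := h5
      _ = _ := by ring
  have h5 : ((k - m0 : ℕ) : ℝ) * (1 / (S * K + 1)) ≤ C4 + Real.log (k + 1) := by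
    have h6 := Real.log_le_log (by positivity) h4
    rw [Real.log_pow, Real.log_mul (by positivity) (by positivity)] at h6
    refine le_trans ?_ h6
    refine mul_le_mul_of_nonneg_left ?_ (by positivity)
    have h7 := Real.one_sub_inv_le_log_of_pos (show (0 : ℝ) < 1 + 1 / (S * K) by positivity)
    refine le_trans (le_of_eq ?_) h7
    field_simp
    ring
  -- estimates for k
  have hlog4 : Real.log 4 = 2 * Real.log 2 := by
    rw [show (4 : ℝ) = 2 ^ 2 by norm_num, Real.log_pow]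
    norm_num
  have hl2 := Real.log_two_gt_d9
  have hl2' := Real.log_two_lt_d9
  have h6 : X ≤ (k + 1) * Real.log 4 := by
    have h7 : (x : ℝ) ≤ 4 ^ (k + 1) := by exact_mod_cast hk2.le
    have h8 := Real.log_le_log (by exact_mod_cast hx5) h7
    rw [Real.log_pow] at h8
    push_cast at h8
    exact h8
  have h7 : k * Real.log 4 ≤ X := by
    have h7 : (4 : ℝ) ^ k ≤ x := by exact_mod_cast hk1
    have h8 := Real.log_le_log (by positivity) h7
    rw [Real.log_pow] at h8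
    exact h8
  have hm0' : (0 : ℝ) ≤ m0 := by positivity
  have hk0 : (0 : ℝ) ≤ k := by positivity
  have h8 : (k : ℝ) + 1 ≤ X := by
    rw [hlog4] at h7
    nlinarith
  have h9 : Real.log (k + 1) ≤ ℓ := Real.log_le_log (by positivity) h8
  have h10 : ((k - m0 : ℕ) : ℝ) = k - m0 := by
    rw [Nat.cast_sub hkm]
  rw [h10, mul_one_div, div_le_iff₀ (by positivity)] at h5
  have h11 : (C4 + Real.log (k + 1)) * (S * K + 1) ≤ (2 * ℓ) * (S * K + 1) :=
    mul_le_mul_of_nonneg_right (by linarith) (by positivity)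
  have h12 : 2 * ℓ * (S * K + 1) = X / 4 + 2 * ℓ := by
    rw [hKdef]
    field_simp
    ring
  have h13 : X / 2 - 1 ≤ k := by
    rw [hlog4] at h6
    nlinarith
  rw [h12] at h11
  -- X/2 - 1 - m0 ≤ X/4 + 2ℓ
  linarith

end Q123.ET
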