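import Pool.Agent.Q123.ET.OrderH

/-!
# The growth of the representation function of order `h` of chain-homogeneous sets
-/

namespace Q123.ET

open Finset Filter

/-- `A` is chain-homogeneous: for some `b ≥ 4` and `B`, and for every `k`, there is a chain of windows
of `b ^ 0, b ^ 1, …, b ^ k` elements (up to the factor `B`) such that `A ∩ [0, b ^ k)` is covered by at
most `B · A(B b ^ (k - j))` windows of the size number `j`. -/
def ChainHomogeneous (A : Set ℕ) : Prop :=
  ∃ b B : ℕ, 4 ≤ b ∧ ∀ k : ℕ, ∃ q L : ℕ → ℕ, WindowChain (k + 1) q L ∧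
    ∀ j ≤ k, L j ≤ B * b ^ j * q j ∧
      CoveredW (A ∩ Set.Iio (b ^ k)) (q j) (L j) (B * cnt A (B * b ^ (k - j)))

/-- the normalised power of the counting function -/
noncomputable def uH (A : Set ℕ) (h b i : ℕ) : ℝ := (cnt A (b ^ i) : ℝ) ^ h / (b : ℝ) ^ i

lemma uH_sum_le {h : ℕ} (hh : 2 ≤ h) {A : Set ℕ} {b m i : ℕ} (hb : 4 ≤ b)
    (hB : ∃ q L : ℕ → ℕ, WindowChain (i + 1) q L ∧ ∀ j ≤ i, L j ≤ b ^ m * b ^ j * q j ∧
      CoveredW (A ∩ Set.Iio (b ^ i)) (q j) (L j) (b ^ m * cnt A (b ^ (m + i - j))))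
    {m0 : ℕ} (hm : m ≤ m0) (hu : ∀ l, m0 ≤ l → 0 < uH A h b l) (K : ℝ)
    (hK : ∀ n < h * b ^ i, (repU A h n : ℝ) ≤ K) :
    uH A h b i * ∑ l ∈ Icc m0 i, 1 / uH A h b l ≤
      4 * 8 ^ h * h.factorial * (b : ℝ) ^ (m * (h + 2)) * K := by
  obtain ⟨q, L, hc, hcov⟩ := hB
  have hb0 : (0 : ℝ) < b := by
    have : 0 < b := by omega
    exact_mod_cast this
  have h1 := scalesH hh A (x := b ^ i) (Nat.one_le_pow _ _ (by omega)) (i + 1) K q L
    (fun j => b ^ m * cnt A (b ^ (m + i - j))) hc hK (fun j hj => (hcov j (by omega)).2)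
  have h2 : ∑ l ∈ Icc m0 i, 1 / ((b : ℝ) ^ (m * (h + 2)) * (b : ℝ) ^ i * uH A h b l) ≤
      ∑ j ∈ range (i + 1), (q j : ℝ) / (L j * (((b ^ m * cnt A (b ^ (m + i - j)) : ℕ) : ℝ)) ^ h) := by
    have h3 : ∑ l ∈ Icc m0 i, 1 / ((b : ℝ) ^ (m * (h + 2)) * (b : ℝ) ^ i * uH A h b l) ≤
        ∑ j ∈ (Icc m0 i).image (fun l => m + i - l),
          (q j : ℝ) / (L j * (((b ^ m * cnt A (b ^ (m + i - j)) : ℕ) : ℝ)) ^ h) := by
      rw [sum_image]
      · refine sum_le_sum fun l hl => ?_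
        have hl' := mem_Icc.1 hl
        have e1 : m + i - (m + i - l) = l := by omega
        rw [e1]
        set j := m + i - l with hj
        have hji : j ≤ i := by omega
        have hq := (hc.1 j (by omega)).1
        have hL : 1 ≤ L j := hq.trans (hc.1 j (by omega)).2
        have hq0 : (0 : ℝ) < q j := by exact_mod_cast hq
        have hL0 : (0 : ℝ) < L j := by exact_mod_cast hL
        have h4 : (L j : ℝ) ≤ (b : ℝ) ^ m * (b : ℝ) ^ j * q j := by
          exact_mod_cast (hcov j hji).1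
        have hul := hu l hl'.1
        have e4 : (cnt A (b ^ l) : ℝ) ^ h = uH A h b l * (b : ℝ) ^ l := by
          unfold uH
          field_simp
        push_cast
        rw [mul_pow, e4, div_le_div_iff₀ (by positivity) (by positivity), one_mul]
        have e5 : (b : ℝ) ^ j * (b : ℝ) ^ l = (b : ℝ) ^ m * (b : ℝ) ^ i := by
          rw [← pow_add, ← pow_add]
          congr 1
          omega
        have e6 : (b : ℝ) ^ (m * (h + 2)) = (b : ℝ) ^ m * (b : ℝ) ^ m * ((b : ℝ) ^ m) ^ h := by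
          rw [← pow_mul, ← pow_add, ← pow_add]
          congr 1
          ring
        rw [e6]
        calc (L j : ℝ) * (((b : ℝ) ^ m) ^ h * (uH A h b l * (b : ℝ) ^ l))
            ≤ ((b : ℝ) ^ m * (b : ℝ) ^ j * q j) * (((b : ℝ) ^ m) ^ h * (uH A h b l * (b : ℝ) ^ l)) :=
              mul_le_mul_of_nonneg_right h4 (by positivity)
          _ = q j * ((b : ℝ) ^ m * (((b : ℝ) ^ j * (b : ℝ) ^ l)) * ((b : ℝ) ^ m) ^ h *
              uH A h b l) := by ring
          _ = _ := by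
              rw [e5]
              ring
      · intro a ha c hc' hac
        have ha' := mem_Icc.1 (mem_coe.1 ha)
        have hc'' := mem_Icc.1 (mem_coe.1 hc')
        simp only at hac
        omega
    refine h3.trans (sum_le_sum_of_subset_of_nonneg ?_ (fun j _ _ => by positivity))
    intro j hj
    obtain ⟨l, hl, rfl⟩ := mem_image.1 hj
    have hl' := mem_Icc.1 hl
    rw [mem_range]
    omega
  have h4 : (cnt A (b ^ i) : ℝ) ^ h = (b : ℝ) ^ i * uH A h b i := by
    unfold uH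
    field_simp
  have h5 : uH A h b i * ∑ l ∈ Icc m0 i, 1 / uH A h b l =
      (b : ℝ) ^ (m * (h + 2)) * ((cnt A (b ^ i) : ℝ) ^ h *
      ∑ l ∈ Icc m0 i, 1 / ((b : ℝ) ^ (m * (h + 2)) * (b : ℝ) ^ i * uH A h b l)) := by
    rw [h4, mul_sum, mul_sum, mul_sum]
    refine sum_congr rfl fun l hl => ?_
    have := hu l (mem_Icc.1 hl).1
    field_simp
  rw [h5]
  have h6 := (mul_le_mul_of_nonneg_left h2
    (by positivity : (0 : ℝ) ≤ (cnt A (b ^ i) : ℝ) ^ h)).trans h1
  calc _ ≤ (b : ℝ) ^ (m * (h + 2)) * (4 * 8 ^ h * h.factorial * K) :=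
        mul_le_mul_of_nonneg_left h6 (by positivity)
    _ = _ := by ring

/-- The growth of the representation function of order `h` of a chain-homogeneous set. -/
theorem growthH {h : ℕ} (hh : 2 ≤ h) {A : Set ℕ} (hA : ChainHomogeneous A) {c : ℝ} (hc : 0 < c)
    (hd : ∀ᶠ x : ℕ in atTop, c * x ≤ (cnt A x : ℝ) ^ h) :
    ∃ c' : ℝ, 0 < c' ∧ ∀ᶠ x : ℕ in atTop, ∃ n < h * x,
      c' * Real.log x ≤ repU A h n * Real.log (Real.log x) := by
  obtain ⟨b, B, hb, hB⟩ := hA
  have hb0 : (0 : ℝ) < b := by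
    have : 0 < b := by omega
    exact_mod_cast this
  have hb1 : 1 < b := by omega
  -- the covering property with powers of b
  have hB' : ∀ i : ℕ, ∃ q L : ℕ → ℕ, WindowChain (i + 1) q L ∧ ∀ j ≤ i,
      L j ≤ b ^ B * b ^ j * q j ∧
      CoveredW (A ∩ Set.Iio (b ^ i)) (q j) (L j) (b ^ B * cnt A (b ^ (B + i - j))) := by
    intro i
    obtain ⟨q, L, h1, h2⟩ := hB i
    have hBb : B ≤ b ^ B := (Nat.lt_pow_self hb1).le
    refine ⟨q, L, h1, fun j hj => ⟨((h2 j hj).1).trans ?_, ?_⟩⟩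
    · exact Nat.mul_le_mul_right _ (Nat.mul_le_mul_right _ hBb)
    · obtain ⟨t, ht, h3⟩ := (h2 j hj).2
      refine ⟨t, ht.trans (Nat.mul_le_mul hBb (cnt_mono A ?_)), h3⟩
      have : B + i - j = B + (i - j) := by omega
      rw [this, pow_add]
      exact Nat.mul_le_mul_right _ hBb
  obtain ⟨x0, hx0⟩ := eventually_atTop.1 hd
  set m0 := max B x0 with hm0
  have hu : ∀ l, m0 ≤ l → c ≤ uH A h b l := by
    intro l hl
    have h1 : x0 ≤ b ^ l := (le_trans (le_max_right B x0) hl).trans (Nat.lt_pow_self hb1).le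
    have h2 := hx0 _ h1
    unfold uH
    rw [le_div_iff₀ (by positivity)]
    push_cast at h2
    exact h2
  have hu0 : ∀ l, m0 ≤ l → 0 < uH A h b l := fun l hl => lt_of_lt_of_le hc (hu l hl)
  set S : ℝ := 4 * 8 ^ h * h.factorial * (b : ℝ) ^ (B * (h + 2)) with hS
  have hS0 : 0 < S := by positivity
  set lam : ℝ := Real.log b with hlam
  have hlam1 : 1.38 < lam := by
    have h1 : Real.log 4 ≤ lam := Real.log_le_log (by norm_num) (by exact_mod_cast hb)
    have hlog4 : Real.log 4 = 2 * Real.log 2 := by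
      rw [show (4 : ℝ) = 2 ^ 2 by norm_num, Real.log_pow]
      norm_num
    have hl2 := Real.log_two_gt_d9
    linarith
  have hlam0 : 0 < lam := by linarith
  set D : ℝ := (b : ℝ) ^ (m0 * h) / c with hD
  set C4 : ℝ := Real.log D with hC4
  refine ⟨1 / (8 * S * lam), by positivity, ?_⟩
  -- large x
  have hlog : Tendsto (fun x : ℕ => Real.log x) atTop atTop :=
    Real.tendsto_log_atTop.comp tendsto_natCast_atTop_atTop
  have hloglog : Tendsto (fun x : ℕ => Real.log (Real.log x)) atTop atTop :=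
    Real.tendsto_log_atTop.comp hlog
  have hlo : ∀ᶠ X : ℝ in atTop, 8 * lam * Real.log X ≤ X := by
    have h := Real.isLittleO_log_id_atTop.bound (show (0 : ℝ) < 1 / (8 * lam) by positivity)
    filter_upwards [h, eventually_ge_atTop 1] with X h1 h2
    rw [Real.norm_of_nonneg (Real.log_nonneg h2), id, Real.norm_of_nonneg (by linarith),
      one_div_mul_eq_div, le_div_iff₀ (by positivity)] at h1
    linarith
  filter_upwards [hlog.eventually hlo, hlog.eventually (eventually_ge_atTop (4 * lam * (m0 + 2) : ℝ)),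
    hloglog.eventually (eventually_ge_atTop C4), hloglog.eventually (eventually_ge_atTop 1),
    eventually_ge_atTop 1, eventually_ge_atTop (b ^ m0)] with x hx1 hx2 hx3 hx4 hx5 hx6
  by_contra hcon
  push Not at hcon
  set X := Real.log x with hX
  set ℓ := Real.log X with hℓ
  have hℓ0 : 0 < ℓ := by linarith
  have hm0' : (0 : ℝ) ≤ m0 := by positivity
  have hX4 : 4 ≤ X := by nlinarith
  have hX0 : 0 < X := by linarith
  set K : ℝ := 1 / (8 * S * lam) * X / ℓ with hKdef
  have hK0 : 0 < K := by positivity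
  have hK : ∀ n < h * x, (repU A h n : ℝ) ≤ K := by
    intro n hn
    have := hcon n hn
    rw [hKdef, le_div_iff₀ hℓ0]
    exact this.le
  set k := Nat.log b x with hk
  have hk1 : b ^ k ≤ x := Nat.pow_log_le_self b (by omega)
  have hk2 : x < b ^ (k + 1) := Nat.lt_pow_succ_log_self hb1 x
  have hkm : m0 ≤ k := by
    rw [hk]
    exact Nat.le_log_of_pow_le hb1 hx6
  have hR : 0 < S * K := by positivity
  have h1 := gronwall (uH A h b) (S * K) hR m0 k hu0 (fun i _ hik => by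
    refine uH_sum_le hh hb (hB' i) (le_max_left B x0) hu0 K (fun n hn => hK n ?_)
    have h2 : b ^ i ≤ b ^ k := Nat.pow_le_pow_right (by omega) hik
    have h3 : h * b ^ i ≤ h * x := Nat.mul_le_mul_left _ (h2.trans hk1)
    omega) k hkm le_rfl
  -- upper bound for the sum
  have h2 : ∑ l ∈ Icc m0 k, 1 / uH A h b l ≤ (k + 1) / c := by
    calc ∑ l ∈ Icc m0 k, 1 / uH A h b l ≤ ∑ l ∈ Icc m0 k, 1 / c :=
          sum_le_sum fun l hl => one_div_le_one_div_of_le (by positivity) (hu l (mem_Icc.1 hl).1)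
      _ = #(Icc m0 k) * (1 / c) := by rw [sum_const, nsmul_eq_mul]
      _ ≤ (k + 1) * (1 / c) := by
        refine mul_le_mul_of_nonneg_right ?_ (by positivity)
        have : #(Icc m0 k) ≤ k + 1 := by
          rw [Nat.card_Icc]
          omega
        exact_mod_cast this
      _ = _ := by ring
  have h3 : (1 : ℝ) / (b : ℝ) ^ (m0 * h) ≤ 1 / uH A h b m0 := by
    refine one_div_le_one_div_of_le (hu0 m0 le_rfl) ?_
    unfold uH
    rw [div_le_iff₀ (by positivity)]
    have h5 : (cnt A (b ^ m0) : ℝ) ≤ (b : ℝ) ^ m0 := by exact_mod_cast cnt_le A (b ^ m0)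
    have h6 := pow_le_pow_left₀ (Nat.cast_nonneg _) h5 h
    rw [← pow_mul] at h6
    have h7 : (1 : ℝ) ≤ (b : ℝ) ^ m0 := one_le_pow₀ (by exact_mod_cast hb1.le)
    nlinarith [pow_pos hb0 (m0 * h)]
  have h4 : (1 + 1 / (S * K)) ^ (k - m0) ≤ D * (k + 1) := by
    have h5 : (1 : ℝ) / (b : ℝ) ^ (m0 * h) * (1 + 1 / (S * K)) ^ (k - m0) ≤ (k + 1) / c :=
      (mul_le_mul_of_nonneg_right h3 (by positivity)).trans (h1.trans h2)
    rw [one_div, inv_mul_le_iff₀ (by positivity)] at h5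
    calc _ ≤ _ := h5
      _ = _ := by rw [hD]; ring
  have h5 : ((k - m0 : ℕ) : ℝ) * (1 / (S * K + 1)) ≤ C4 + Real.log (k + 1) := by
    have h6 := Real.log_le_log (by positivity) h4
    rw [Real.log_pow, Real.log_mul (by positivity) (by positivity)] at h6
    refine le_trans ?_ h6
    refine mul_le_mul_of_nonneg_left ?_ (by positivity)
    have h7 := Real.one_sub_inv_le_log_of_pos (show (0 : ℝ) < 1 + 1 / (S * K) by positivity)
    refine le_trans (le_of_eq ?_) h7
    field_simp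
    ring
  -- estimates for k
  have h6 : X ≤ (k + 1) * lam := by
    have h7 : (x : ℝ) ≤ (b : ℝ) ^ (k + 1) := by exact_mod_cast hk2.le
    have h8 := Real.log_le_log (by exact_mod_cast hx5) h7
    rw [Real.log_pow] at h8
    push_cast at h8
    exact h8
  have h7 : k * lam ≤ X := by
    have h7 : (b : ℝ) ^ k ≤ x := by exact_mod_cast hk1
    have h8 := Real.log_le_log (by positivity) h7
    rw [Real.log_pow] at h8
    exact h8
  have hk0 : (0 : ℝ) ≤ k := by positivity
  have h8 : (k : ℝ) + 1 ≤ X := by nlinarith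
  have h9 : Real.log (k + 1) ≤ ℓ := Real.log_le_log (by positivity) h8
  have h10 : ((k - m0 : ℕ) : ℝ) = k - m0 := by
    rw [Nat.cast_sub hkm]
  rw [h10, mul_one_div, div_le_iff₀ (by positivity)] at h5
  have h11 : (C4 + Real.log (k + 1)) * (S * K + 1) ≤ (2 * ℓ) * (S * K + 1) :=
    mul_le_mul_of_nonneg_right (by linarith) (by positivity)
  have h12 : 2 * ℓ * (S * K + 1) = X / (4 * lam) + 2 * ℓ := by
    rw [hKdef]
    field_simp
    ring
  have h13 : X / lam - 1 ≤ k := by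
    rw [sub_le_iff_le_add, div_le_iff₀ hlam0]
    exact h6
  rw [h12] at h11
  have h14 : 2 * ℓ ≤ X / (4 * lam) := by
    rw [le_div_iff₀ (by positivity)]
    linarith
  have h15 : m0 + 2 ≤ X / (4 * lam) := by
    rw [le_div_iff₀ (by positivity)]
    linarith
  have h16 : X / lam = 4 * (X / (4 * lam)) := by
    field_simp
  rw [h16] at h13
  have h17 : 0 < X / (4 * lam) := by positivity
  linarith

/-- Homogeneous sets are chain-homogeneous. -/
theorem chain_of_homogeneous {A : Set ℕ} (hA : Homogeneous A) : ChainHomogeneous A := by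
  obtain ⟨B, hB⟩ := hA
  refine ⟨4, B + 1, le_rfl, fun k => ⟨fun _ => 1, fun j => 4 ^ j, ⟨fun j _ =>
    ⟨le_rfl, Nat.one_le_pow _ _ (by norm_num)⟩, fun j _ => ⟨dvd_rfl,
    Nat.pow_le_pow_right (by norm_num) (by omega), ?_⟩⟩, fun j hj => ⟨?_, ?_⟩⟩⟩
  · show 4 * 1 * 4 ^ j ≤ 1 * 4 ^ (j + 1)
    rw [pow_succ]
    omega
  · have : 1 ≤ 4 ^ j := Nat.one_le_pow _ _ (by norm_num)
    nlinarith [Nat.zero_le B]
  · obtain ⟨t, ht, h1⟩ := hB (4 ^ k) (4 ^ j) (Nat.one_le_pow _ _ (by norm_num))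
      (Nat.pow_le_pow_right (by norm_num) hj)
    rw [Nat.pow_div hj (by norm_num)] at ht
    refine ⟨t.image (fun s => (s, 0)), card_image_le.trans (ht.trans ?_), ?_⟩
    · exact Nat.mul_le_mul (by omega) (cnt_mono A (Nat.mul_le_mul_right _ (by omega)))
    · intro a ha
      obtain ⟨s, hs, h2, h3⟩ := h1 a ha
      exact ⟨(s, 0), mem_image.2 ⟨s, hs, rfl⟩, h2, h3, by simp⟩

/-- `A` is closed under reduction modulo the powers of `g` up to bounded factors: for all `a ∈ A` and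
`i` there is an element of `A` below `D g ^ i` which is congruent to `a` modulo `g ^ i`. -/
def ReductionClosed (g : ℕ) (A : Set ℕ) : Prop :=
  ∃ D : ℕ, ∀ a ∈ A, ∀ i : ℕ, ∃ b ∈ A, b < D * g ^ i ∧ ((g ^ i : ℕ) : ℤ) ∣ (a : ℤ) - b

/-- Sets closed under reduction modulo the powers of `g` are chain-homogeneous. -/
theorem chain_of_reduction {g : ℕ} (hg : 2 ≤ g) {A : Set ℕ} (hA : ReductionClosed g A) :
    ChainHomogeneous A := by
  classical
  obtain ⟨D, hD⟩ := hA
  have hb : 4 ≤ g ^ 2 := by nlinarith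
  have hb1 : ∀ i, 1 ≤ (g ^ 2) ^ i := fun i => Nat.one_le_pow _ _ (by omega)
  refine ⟨g ^ 2, D + 1, hb, fun k => ⟨fun j => (g ^ 2) ^ (k - j), fun _ => (g ^ 2) ^ k, ⟨fun j _ =>
    ⟨hb1 _, Nat.pow_le_pow_right (by omega) (by omega)⟩, fun j hj => ⟨?_, le_rfl, ?_⟩⟩,
    fun j hj => ⟨?_, ?_⟩⟩⟩
  · exact pow_dvd_pow _ (by omega)
  · have e : k - j = (k - (j + 1)) + 1 := by omega
    show 4 * (g ^ 2) ^ (k - (j + 1)) * (g ^ 2) ^ k ≤ (g ^ 2) ^ (k - j) * (g ^ 2) ^ k
    rw [e, pow_succ]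
    refine Nat.mul_le_mul_right _ ?_
    rw [mul_comm 4]
    exact Nat.mul_le_mul_left _ hb
  · have e : (g ^ 2) ^ j * (g ^ 2) ^ (k - j) = (g ^ 2) ^ k := by
      rw [← pow_add]
      congr 1
      omega
    rw [mul_assoc, e]
    nlinarith [hb1 k, Nat.zero_le D]
  · refine ⟨({r ∈ range ((D + 1) * (g ^ 2) ^ (k - j)) | r ∈ A}).image (fun r : ℕ => ((0 : ℤ), (r : ℤ))),
      card_image_le.trans ?_, ?_⟩
    · have : #{r ∈ range ((D + 1) * (g ^ 2) ^ (k - j)) | r ∈ A} =
          cnt A ((D + 1) * (g ^ 2) ^ (k - j)) := by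
        unfold cnt
        congr
      rw [this]
      exact Nat.le_mul_of_pos_left _ (by omega)
    · rintro a ⟨ha, hax⟩
      obtain ⟨r, hr, hr1, hr2⟩ := hD a ha (2 * (k - j))
      rw [pow_mul] at hr1 hr2
      refine ⟨((0 : ℤ), (r : ℤ)), mem_image.2 ⟨r, mem_filter.2 ⟨mem_range.2 ?_, hr⟩, rfl⟩, by simp, ?_,
        hr2⟩
      · have := hb1 (k - j)
        nlinarith
      · have : a < (g ^ 2) ^ k := hax
        simp only [zero_add]
        exact_mod_cast this

/-- A basis of order `h` has at least `(x / 2) ^ (1 / h)` elements below `x`. -/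
lemma density_of_basisH {h : ℕ} {A : Set ℕ} (hA : ∀ᶠ n in atTop, 1 ≤ repU A h n) :
    ∀ᶠ x : ℕ in atTop, 1 / 2 * (x : ℝ) ≤ (cnt A x : ℝ) ^ h := by
  classical
  obtain ⟨n0, hn0⟩ := eventually_atTop.1 hA
  filter_upwards [eventually_ge_atTop (2 * n0)] with x hx
  set F : Finset ℕ := {a ∈ range x | a ∈ A} with hF
  have hc : cnt A x = #F := by
    unfold cnt
    rw [hF]
  have hex : ∀ n ∈ Ico n0 x, ∃ u : Fin h → ℕ, u ∈ Fintype.piFinset (fun _ : Fin h => F) ∧
      ∑ i, u i = n := by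
    intro n hn
    rw [mem_Ico] at hn
    have h1 := hn0 n hn.1
    unfold repU at h1
    have h2 : (reps A h n).Nonempty := by
      by_contra hcon
      rw [Set.not_nonempty_iff_eq_empty.1 hcon, Set.ncard_empty] at h1
      omega
    obtain ⟨m, hm1, hm2, hm3⟩ := h2
    obtain ⟨l, rfl⟩ := Quot.exists_rep m
    have hl : l.length = h := hm1
    subst hl
    refine ⟨fun i => l.get i, ?_, ?_⟩
    · rw [Fintype.mem_piFinset]
      intro i
      have h3 : l.get i ∈ l := List.get_mem _ _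
      refine mem_filter.2 ⟨mem_range.2 ?_, hm2 _ h3⟩
      have h4 : l.get i ≤ l.sum := List.single_le_sum (fun _ _ => Nat.zero_le _) _ h3
      have h5 : l.sum = n := hm3
      omega
    · have h5 : l.sum = n := hm3
      rw [← h5, ← List.sum_ofFn]
      congr 1
      exact List.ofFn_get l
  choose! f hf using hex
  have h1 : #(Ico n0 x) ≤ #(Fintype.piFinset (fun _ : Fin h => F)) := by
    refine card_le_card_of_injOn f (fun n hn => (hf n (mem_coe.1 hn)).1) ?_
    intro a ha b hb hab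
    rw [← (hf a (mem_coe.1 ha)).2, ← (hf b (mem_coe.1 hb)).2, hab]
  rw [Nat.card_Ico, Fintype.card_piFinset, prod_const, card_univ, Fintype.card_fin, ← hc] at h1
  have h2 : x ≤ 2 * (cnt A x) ^ h := by omega
  have h3 : (x : ℝ) ≤ 2 * (cnt A x : ℝ) ^ h := by exact_mod_cast h2
  linarith

end Q123.ET
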