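import Pool.Agent.Q123.ET.Windows

/-!
# The moment inequality over a chain of windows, assembled
-/

namespace Q123.ET

open Finset ZMod

/-- the `h`-th energy: pairs of `h`-tuples of elements of `F` with equal sums -/
def enH (F : Finset ℕ) (h : ℕ) : ℕ :=
  #{p ∈ (Fintype.piFinset (fun _ : Fin h => F)) ×ˢ (Fintype.piFinset (fun _ : Fin h => F)) |
    ∑ i, p.1 i = ∑ i, p.2 i}

/-- A chain of windows: the moduli are successive divisors, the lengths increase, and the number of
integers in a window grows at least by the factor 4. -/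
def WindowChain (J : ℕ) (q L : ℕ → ℕ) : Prop :=
  (∀ j < J, 1 ≤ q j ∧ q j ≤ L j) ∧
  ∀ j, j + 1 < J → q (j + 1) ∣ q j ∧ L j ≤ L (j + 1) ∧ 4 * q (j + 1) * L j ≤ q j * L (j + 1)

theorem windows_energy {h : ℕ} (hh : 2 ≤ h) (F : Finset ℕ) (J : ℕ) (q L N : ℕ → ℕ)
    (hc : WindowChain J q L) (hN : ∀ j < J, CoveredW (F : Set ℕ) (q j) (L j) (N j)) :
    (#F : ℝ) ^ (2 * h) * ∑ j ∈ range J, (q j : ℝ) / (L j * (N j : ℝ) ^ h) ≤
      4 * 8 ^ h * enH F h := by
  classical
  rcases Nat.eq_zero_or_pos #F with hF | hF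
  · rw [hF, Nat.cast_zero, zero_pow (by omega), zero_mul]
    positivity
  rcases Nat.eq_zero_or_pos J with hJ | hJ
  · subst hJ
    simp only [range_zero, sum_empty, mul_zero]
    positivity
  obtain ⟨hc1, hc2⟩ := hc
  obtain ⟨x, hx⟩ : ∃ x, F ⊆ range x := ⟨F.sup id + 1, fun a ha =>
    mem_range.2 (Nat.lt_succ_of_le (Finset.le_sup (f := id) ha))⟩
  set Λ := ∏ j ∈ range J, L j with hΛ
  have hL1 : ∀ j < J, 1 ≤ L j := fun j hj => (hc1 j hj).1.trans (hc1 j hj).2
  have hΛ1 : 0 < Λ := prod_pos fun j hj => hL1 j (mem_range.1 hj)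
  have hq0 : 0 < q 0 := (hc1 0 hJ).1
  set Q := 8 * Λ * q 0 * (h * x + 1) with hQ
  have hQpos : 0 < Q := by positivity
  have : NeZero Q := ⟨hQpos.ne'⟩
  have hLd : ∀ j < J, 8 * L j ∣ Q := by
    intro j hj
    obtain ⟨c, hc⟩ : L j ∣ Λ := dvd_prod_of_mem L (mem_range.2 hj)
    exact ⟨c * q 0 * (h * x + 1), by rw [hQ, hc]; ring⟩
  have hqd : ∀ j < J, q j ∣ q 0 := by
    intro j
    induction j with
    | zero => exact fun _ => dvd_rfl
    | succ j ih => exact fun hj => ((hc2 j hj).1).trans (ih (by omega))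
  have hqQ : ∀ j < J, q j ∣ Q := by
    intro j hj
    refine (hqd j hj).trans ⟨8 * Λ * (h * x + 1), by rw [hQ]; ring⟩
  set T : ℕ → ℕ := fun j => Q / (8 * L j) with hTdef
  have hT : ∀ j < J, 8 * L j * T j = Q := fun j hj => Nat.mul_div_cancel' (hLd j hj)
  set q' : ℕ → ℕ := fun j => Q / q j with hq'def
  have hq' : ∀ j < J, Q = q j * q' j := fun j hj => (Nat.mul_div_cancel' (hqQ j hj)).symm
  have hT1 : ∀ j < J, 1 ≤ T j := by
    intro j hj
    rw [Nat.one_le_iff_ne_zero]
    intro h0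
    have := hT j hj
    rw [h0, mul_zero] at this
    omega
  have hTq : ∀ j < J, T j ≤ q' j := by
    intro j hj
    refine Nat.div_le_div_left ?_ (hc1 j hj).1
    have := (hc1 j hj).2
    omega
  have hTT : ∀ j, j + 1 < J → T (j + 1) ≤ T j := by
    intro j hj
    refine Nat.div_le_div_left ?_ ?_
    · have := (hc2 j hj).2.1
      omega
    · have := hL1 j (by omega)
      omega
  set M : ℕ → Finset (ZMod Q) := fun j => if j < J then win Q (q j) (q' j) (T j) else ∅ with hM
  have hMj : ∀ j < J, M j = win Q (q j) (q' j) (T j) := fun j hj => by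
    simp only [hM]
    rw [if_pos hj]
  have hMM : ∀ j, M (j + 1) ⊆ M j := by
    intro j
    by_cases hj : j + 1 < J
    · rw [hMj j (by omega), hMj (j + 1) hj]
      exact win_subset (hq' j (by omega)) (hq' (j + 1) hj) (hc2 j hj).1 (hTT j hj)
    · simp only [hM]
      rw [if_neg hj]
      exact empty_subset _
  have hanti : Antitone M := antitone_nat_of_succ_le hMM
  set A : ℕ → ℝ := fun j => ∑ t ∈ M j, ‖SS F t‖ ^ 2 with hA
  set W : ℕ → ℝ := fun j => ∑ t ∈ M j \ M (j + 1), ‖SS F t‖ ^ 2 with hW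
  set m : ℕ → ℝ := fun j => ((q j * T j : ℕ) : ℝ) with hm
  have hmpos : ∀ j < J, 0 < m j := by
    intro j hj
    simp only [hm]
    have := Nat.mul_pos (show 0 < q j from (hc1 j hj).1) (show 0 < T j from hT1 j hj)
    exact_mod_cast this
  have hmL : ∀ j < J, m j * (8 * L j) = Q * q j := by
    intro j hj
    simp only [hm]
    have := hT j hj
    have e : (q j * T j) * (8 * L j) = Q * q j := by rw [← this]; ring
    exact_mod_cast e
  have hmm : ∀ j, j + 1 < J → 4 * m (j + 1) ≤ m j := by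
    intro j hj
    have h1 := hmL j (by omega)
    have h2 := hmL (j + 1) hj
    have h3 : (4 * q (j + 1) * L j : ℝ) ≤ q j * L (j + 1) := by exact_mod_cast (hc2 j hj).2.2
    have hLj : (0 : ℝ) < L j := by exact_mod_cast hL1 j (by omega)
    have hLj1 : (0 : ℝ) < L (j + 1) := by exact_mod_cast hL1 (j + 1) hj
    have e1 : m j = Q * q j / (8 * L j) := by rw [← h1]; field_simp
    have e2 : m (j + 1) = Q * q (j + 1) / (8 * L (j + 1)) := by rw [← h2]; field_simp
    rw [e1, e2, ← mul_div_assoc, div_le_div_iff₀ (by positivity) (by positivity)]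
    have hQ0 : (0 : ℝ) ≤ Q := by positivity
    nlinarith [mul_le_mul_of_nonneg_left h3 hQ0]
  have hH := hardy_pow hh J m A W hmpos hmm (fun j => sum_nonneg fun _ _ => by positivity)
    (fun j => sum_nonneg fun _ _ => by positivity) (by simp [hA, hM]) (by
      intro j _
      simp only [hA, hW]
      rw [sum_sdiff (hMM j)])
  -- the upper bound
  have hup : ∑ j ∈ range J, W j ^ h / m j ^ (h - 1) ≤ 2 ^ (h - 1) * (Q * enH F h) := by
    have h1 : ∀ j ∈ range J, W j ^ h / m j ^ (h - 1) ≤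
        2 ^ (h - 1) * ∑ t ∈ M j \ M (j + 1), ‖SS F t‖ ^ (2 * h) := by
      intro j hj
      have hj' := mem_range.1 hj
      have hmj := hmpos j hj'
      have h2 := pow_sum_div_card_le_sum_pow (s := M j \ M (j + 1)) (f := fun t => ‖SS F t‖ ^ 2)
        (n := h - 1) (fun _ _ => by positivity)
      have e1 : h - 1 + 1 = h := by omega
      rw [e1] at h2
      have h3 : (#(M j \ M (j + 1)) : ℝ) ≤ 2 * m j := by
        have h4 : #(M j \ M (j + 1)) ≤ 2 * (q j * T j) := by
          refine (card_le_card sdiff_subset).trans ?_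
          rw [hMj j hj']
          exact card_win_le _ _ _
        simp only [hm]
        exact_mod_cast h4
      rcases Nat.eq_zero_or_pos #(M j \ M (j + 1)) with h0 | h0
      · have h5 : W j = 0 := by
          simp only [hW]
          rw [card_eq_zero.1 h0, sum_empty]
        rw [h5, zero_pow (by omega), zero_div]
        exact mul_nonneg (by positivity) (sum_nonneg fun _ _ => by positivity)
      · have h0' : (0 : ℝ) < #(M j \ M (j + 1)) := by exact_mod_cast h0
        rw [div_le_iff₀ (pow_pos h0' _)] at h2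
        have h6 : ∑ t ∈ M j \ M (j + 1), (‖SS F t‖ ^ 2) ^ h =
            ∑ t ∈ M j \ M (j + 1), ‖SS F t‖ ^ (2 * h) :=
          sum_congr rfl fun t _ => by rw [pow_mul]
        rw [h6] at h2
        rw [div_le_iff₀ (by positivity)]
        calc W j ^ h ≤ (∑ t ∈ M j \ M (j + 1), ‖SS F t‖ ^ (2 * h)) *
              (#(M j \ M (j + 1)) : ℝ) ^ (h - 1) := h2
          _ ≤ (∑ t ∈ M j \ M (j + 1), ‖SS F t‖ ^ (2 * h)) * (2 * m j) ^ (h - 1) :=
              mul_le_mul_of_nonneg_left (pow_le_pow_left₀ h0'.le h3 _)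
                (sum_nonneg fun _ _ => by positivity)
          _ = _ := by rw [mul_pow]; ring
    have h2 : ∑ j ∈ range J, ∑ t ∈ M j \ M (j + 1), ‖SS F t‖ ^ (2 * h) ≤
        ∑ t : ZMod Q, ‖SS F t‖ ^ (2 * h) := by
      rw [← sum_biUnion]
      · exact sum_le_sum_of_subset_of_nonneg (subset_univ _) (fun _ _ _ => by positivity)
      · intro i _ j _ hij
        rw [Function.onFun, disjoint_left]
        intro t hti htj
        rw [mem_sdiff] at hti htj
        rcases lt_or_gt_of_ne hij with h1 | h1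
        · exact hti.2 (hanti (by omega : i + 1 ≤ j) htj.1)
        · exact htj.2 (hanti (by omega : j + 1 ≤ i) hti.1)
    have h3 : ∑ t : ZMod Q, ‖SS F t‖ ^ (2 * h) = Q * enH F h := by
      rw [moment]
      congr 2
      unfold enH
      congr 1
      refine filter_congr fun p hp => ?_
      have hlt : ∀ u ∈ Fintype.piFinset (fun _ : Fin h => F), ∑ i, u i < Q := by
        intro u hu
        have h4 : ∑ i, u i ≤ ∑ _i : Fin h, x := sum_le_sum fun i _ => by
          have := mem_range.1 (hx (Fintype.mem_piFinset.1 hu i))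
          omega
        rw [sum_const, card_univ, Fintype.card_fin, smul_eq_mul] at h4
        have h5 : 1 * (h * x + 1) ≤ Q := by
          rw [hQ]
          refine Nat.mul_le_mul_right _ ?_
          exact Nat.mul_pos (by positivity) hq0
        omega
      rw [ZMod.natCast_eq_natCast_iff, Nat.ModEq, Nat.mod_eq_of_lt (hlt _ (mem_product.1 hp).1),
        Nat.mod_eq_of_lt (hlt _ (mem_product.1 hp).2)]
    calc _ ≤ ∑ j ∈ range J, 2 ^ (h - 1) * ∑ t ∈ M j \ M (j + 1), ‖SS F t‖ ^ (2 * h) :=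
          sum_le_sum h1
      _ = 2 ^ (h - 1) * ∑ j ∈ range J, ∑ t ∈ M j \ M (j + 1), ‖SS F t‖ ^ (2 * h) := by
          rw [mul_sum]
      _ ≤ 2 ^ (h - 1) * (Q * enH F h) := by
          rw [← h3]
          exact mul_le_mul_of_nonneg_left h2 (by positivity)
  -- the lower bound
  have hlo : ∀ j ∈ range J, (#F : ℝ) ^ (2 * h) * ((q j : ℝ) / (L j * (N j : ℝ) ^ h)) *
      (Q / (8 * 2 ^ h)) ≤ A j ^ h / m j ^ (h - 1) := by
    intro j hj
    have hj' := mem_range.1 hj
    have hmj := hmpos j hj'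
    have hLj : (0 : ℝ) < L j := by exact_mod_cast hL1 j hj'
    have h1 := window_lower F (hq' j hj') (L := L j) (hT j hj').le
      (Nat.mul_pos (hc1 j hj').1 (hT1 j hj')) (hTq j hj')
    have h2 := card_sq_le_ppw F (q j) (L j) (N j) (hN j hj')
    have hN0 : 0 < N j := by
      rcases Nat.eq_zero_or_pos (N j) with h0 | h0
      · rw [h0, zero_mul] at h2
        have : 0 < (#F) ^ 2 := by positivity
        omega
      · exact h0
    have hN0' : (0 : ℝ) < N j := by exact_mod_cast hN0
    have h3 : (#F : ℝ) ^ 2 ≤ N j * ppw F (q j) (L j) := by exact_mod_cast h2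
    have h4 : m j / 2 * (ppw F (q j) (L j) : ℝ) ≤ A j := by
      simp only [hA]
      rw [hMj j hj']
      exact h1
    have h5 : m j / 2 * ((#F : ℝ) ^ 2 / N j) ≤ A j := by
      refine le_trans ?_ h4
      refine mul_le_mul_of_nonneg_left ?_ (by positivity)
      rw [div_le_iff₀ hN0']
      linarith
    have h6 := pow_le_pow_left₀ (by positivity) h5 h
    rw [le_div_iff₀ (by positivity)]
    refine le_trans (le_of_eq ?_) h6
    have e1 : m j = Q * q j / (8 * L j) := by
      rw [← hmL j hj']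
      field_simp
    have e2 : m j ^ h = m j * m j ^ (h - 1) := by
      rw [← pow_succ']
      congr 1
      omega
    rw [mul_pow, div_pow, div_pow, e2, ← pow_mul]
    nth_rewrite 2 [e1]
    field_simp
  have hfin : (#F : ℝ) ^ (2 * h) * (∑ j ∈ range J, (q j : ℝ) / (L j * (N j : ℝ) ^ h)) *
      (Q / (8 * 2 ^ h)) ≤ 2 ^ h * (2 ^ (h - 1) * (Q * enH F h)) := by
    rw [mul_sum, sum_mul]
    exact (sum_le_sum hlo).trans (hH.trans (mul_le_mul_of_nonneg_left hup (by positivity)))
  have hQ0 : (0 : ℝ) < Q := by exact_mod_cast hQpos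
  have e8 : (8 : ℝ) ^ h = 2 * 2 ^ (h - 1) * 2 ^ h * 2 ^ h := by
    have : (2 : ℝ) * 2 ^ (h - 1) = 2 ^ h := by
      rw [← pow_succ']
      congr 1
      omega
    rw [this, ← mul_pow, ← mul_pow]
    norm_num
  rw [e8]
  have hX : ∀ X : ℝ, X * (Q / (8 * 2 ^ h)) ≤ 2 ^ h * (2 ^ (h - 1) * (Q * enH F h)) →
      X ≤ 4 * (2 * 2 ^ (h - 1) * 2 ^ h * 2 ^ h) * enH F h := by
    intro X hX
    rw [← mul_div_assoc, div_le_iff₀ (by positivity)] at hX
    have : X * Q ≤ (4 * (2 * 2 ^ (h - 1) * 2 ^ h * 2 ^ h) * enH F h) * Q := by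
      refine hX.trans (le_of_eq ?_)
      ring
    exact le_of_mul_le_mul_right this hQ0
  exact hX _ hfin

end Q123.ET
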