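import Pool.Agent.Q123.ET.Moments

/-!
# Representation functions of order `h` and chains of windows
-/

namespace Q123.ET

open Finset Filter

/-- The set of the representations of `n` as a sum of `h` elements of `A`, the order of the summands
being disregarded. -/
def reps (A : Set ℕ) (h n : ℕ) : Set (Multiset ℕ) :=
  {m | Multiset.card m = h ∧ (∀ a ∈ m, a ∈ A) ∧ m.sum = n}

/-- The unordered representation function of order `h`. -/
noncomputable def repU (A : Set ℕ) (h n : ℕ) : ℕ := (reps A h n).ncard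

lemma reps_finite (A : Set ℕ) (h n : ℕ) : (reps A h n).Finite := by
  classical
  have h1 : (reps A h n) ⊆ ((Multiset.powersetCard h (h • (Multiset.range (n + 1)))).toFinset :
      Set (Multiset ℕ)) := by
    rintro m ⟨h1, _, h3⟩
    simp only [Multiset.mem_toFinset, Finset.mem_coe, Multiset.mem_powersetCard]
    refine ⟨?_, h1⟩
    rw [Multiset.le_iff_count]
    intro a
    rw [Multiset.count_nsmul]
    by_cases ha : a ∈ m
    · have h4 : a ≤ n := by
        rw [← h3]
        exact Multiset.single_le_sum (fun _ _ => Nat.zero_le _) a ha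
      rw [Multiset.count_eq_one_of_mem (Multiset.nodup_range _) (Multiset.mem_range.2 (by omega))]
      have := Multiset.count_le_card a m
      omega
    · rw [Multiset.count_eq_zero_of_notMem ha]
      exact Nat.zero_le _
  exact (Finset.finite_toSet _).subset h1

/-- Ordered representations are at most `h!` times as many as unordered ones. -/
lemma ordered_le (A : Set ℕ) (F : Finset ℕ) (hF : ∀ a ∈ F, a ∈ A) (h n : ℕ) :
    #{u ∈ Fintype.piFinset (fun _ : Fin h => F) | ∑ i, u i = n} ≤ h.factorial * repU A h n := by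
  classical
  set S := {u ∈ Fintype.piFinset (fun _ : Fin h => F) | ∑ i, u i = n} with hS
  set f : (Fin h → ℕ) → Multiset ℕ := fun u => (List.ofFn u : Multiset ℕ) with hf
  have h1 : #S ≤ h.factorial * #(S.image f) := by
    refine card_le_mul_card_image S h.factorial ?_
    intro m hm
    obtain ⟨u0, hu0, rfl⟩ := mem_image.1 hm
    have h2 : #{u ∈ S | f u = f u0} ≤ #((List.ofFn u0).permutations.toFinset) := by
      refine card_le_card_of_injOn (fun u => List.ofFn u) ?_ ?_
      · intro u hu
        have hu' := (mem_filter.1 (mem_coe.1 hu)).2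
        simp only [mem_coe, List.mem_toFinset, List.mem_permutations]
        exact Multiset.coe_eq_coe.1 hu'
      · intro u _ v _ huv
        exact List.ofFn_injective huv
    refine h2.trans ((List.toFinset_card_le _).trans ?_)
    rw [List.length_permutations, List.length_ofFn]
  refine h1.trans (Nat.mul_le_mul le_rfl ?_)
  unfold repU
  rw [← Set.ncard_coe_finset]
  refine Set.ncard_le_ncard ?_ (reps_finite A h n)
  intro m hm
  obtain ⟨u, hu, rfl⟩ := mem_image.1 (mem_coe.1 hm)
  rw [hS, mem_filter, Fintype.mem_piFinset] at hu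
  refine ⟨by simp [hf], ?_, ?_⟩
  · intro a ha
    simp only [hf, Multiset.mem_coe, List.mem_ofFn] at ha
    obtain ⟨i, rfl⟩ := ha
    exact hF _ (hu.1 i)
  · simp only [hf, Multiset.sum_coe, List.sum_ofFn]
    exact hu.2

lemma enH_le (F : Finset ℕ) (h K : ℕ) (hK : ∀ u ∈ Fintype.piFinset (fun _ : Fin h => F),
    #{v ∈ Fintype.piFinset (fun _ : Fin h => F) | ∑ i, v i = ∑ i, u i} ≤ K) :
    enH F h ≤ (#F) ^ h * K := by
  classical
  unfold enH
  rw [card_eq_sum_card_fiberwise (f := Prod.fst) (t := Fintype.piFinset (fun _ : Fin h => F))]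
  · have hc : #(Fintype.piFinset (fun _ : Fin h => F)) = (#F) ^ h := by
      rw [Fintype.card_piFinset]
      simp
    rw [← hc, ← smul_eq_mul]
    refine sum_le_card_nsmul _ _ _ fun u hu => ?_
    refine le_trans ?_ (hK u hu)
    refine card_le_card_of_injOn Prod.snd ?_ ?_
    · rintro ⟨a, b⟩ hab
      simp only [coe_filter, mem_filter, mem_product, Set.mem_ofPred_eq] at hab ⊢
      obtain ⟨⟨⟨_, h2⟩, h3⟩, rfl⟩ := hab
      exact ⟨h2, h3.symm⟩
    · rintro ⟨a, b⟩ hab ⟨a', b'⟩ hab' he
      simp only [coe_filter, mem_filter, Set.mem_ofPred_eq] at hab hab' he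
      rw [hab.2, hab'.2, he]
  · rintro ⟨a, b⟩ hab
    simp only [coe_filter, mem_product, Set.mem_ofPred_eq] at hab
    exact hab.1.1

/-- The inequality for sets with a bounded representation function of order `h`. -/
theorem scalesH {h : ℕ} (hh : 2 ≤ h) (A : Set ℕ) {x : ℕ} (hx : 1 ≤ x) (J : ℕ) (K : ℝ)
    (q L N : ℕ → ℕ) (hc : WindowChain J q L) (hK : ∀ n < h * x, (repU A h n : ℝ) ≤ K)
    (hN : ∀ j < J, CoveredW (A ∩ Set.Iio x) (q j) (L j) (N j)) :
    (cnt A x : ℝ) ^ h * ∑ j ∈ range J, (q j : ℝ) / (L j * (N j : ℝ) ^ h) ≤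
      4 * 8 ^ h * h.factorial * K := by
  classical
  have hK0 : 0 ≤ K := le_trans (Nat.cast_nonneg _) (hK 0 (Nat.mul_pos (by omega) hx))
  set F : Finset ℕ := {a ∈ range x | a ∈ A} with hF
  have hcoe : (F : Set ℕ) = A ∩ Set.Iio x := by
    ext a
    simp [hF, and_comm]
  have hcn : cnt A x = #F := by
    unfold cnt
    rw [hF]
  have h1 := windows_energy hh F J q L N hc (by
    intro j hj
    rw [hcoe]
    exact hN j hj)
  have h2 : enH F h ≤ (#F) ^ h * (h.factorial * ⌊K⌋₊) := by
    refine enH_le F h _ fun u hu => ?_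
    refine (ordered_le A F (fun a ha => (mem_filter.1 ha).2) h _).trans ?_
    refine Nat.mul_le_mul le_rfl (Nat.le_floor (hK _ ?_))
    have h3 : ∑ i, (u i + 1) ≤ ∑ _i : Fin h, x := sum_le_sum fun i _ => by
      have := mem_range.1 (mem_filter.1 (Fintype.mem_piFinset.1 hu i)).1
      omega
    rw [sum_add_distrib, sum_const, sum_const, card_univ, Fintype.card_fin, smul_eq_mul,
      smul_eq_mul] at h3
    omega
  rw [hcn]
  rcases Nat.eq_zero_or_pos #F with h0 | h0
  · rw [h0, Nat.cast_zero, zero_pow (by omega), zero_mul]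
    positivity
  have h0' : (0 : ℝ) < #F := by exact_mod_cast h0
  have h3 : (enH F h : ℝ) ≤ (#F : ℝ) ^ h * (h.factorial * K) := by
    have h4 : (enH F h : ℝ) ≤ (#F : ℝ) ^ h * (h.factorial * (⌊K⌋₊ : ℝ)) := by exact_mod_cast h2
    refine h4.trans ?_
    have := Nat.floor_le hK0
    gcongr
  have h4 : (#F : ℝ) ^ h * ((#F : ℝ) ^ h * ∑ j ∈ range J, (q j : ℝ) / (L j * (N j : ℝ) ^ h)) ≤
      (#F : ℝ) ^ h * (4 * 8 ^ h * h.factorial * K) := by
    calc _ = (#F : ℝ) ^ (2 * h) * ∑ j ∈ range J, (q j : ℝ) / (L j * (N j : ℝ) ^ h) := by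
          rw [two_mul, pow_add]
          ring
      _ ≤ 4 * 8 ^ h * enH F h := h1
      _ ≤ 4 * 8 ^ h * ((#F : ℝ) ^ h * (h.factorial * K)) :=
          mul_le_mul_of_nonneg_left h3 (by positivity)
      _ = _ := by ring
  exact le_of_mul_le_mul_left h4 (by positivity)

end Q123.ET
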