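import Pool.Agent.Q123.ET.Energy

/-!
# The representation function of sets which are covered by few intervals on many scales
-/

namespace Q123.ET

open Finset

open Classical in
/-- The number of ordered pairs of elements of `A` with sum `n`. -/
noncomputable def rep (A : Set ℕ) (n : ℕ) : ℕ := #{p ∈ antidiagonal n | p.1 ∈ A ∧ p.2 ∈ A}

open Classical in
/-- The number of elements of `A` less than `x`. -/
noncomputable def cnt (A : Set ℕ) (x : ℕ) : ℕ := #{a ∈ range x | a ∈ A}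

/-- The main inequality. -/
theorem scales {g : ℕ} (hg : 4 ≤ g) (A : Set ℕ) {x : ℕ} (hx : 1 ≤ x) (J : ℕ) (K : ℝ) (N : ℕ → ℕ)
    (hK : ∀ n < 2 * x, (rep A n : ℝ) ≤ K)
    (hN : ∀ j < J, Covered (A ∩ Set.Iio x) (g ^ j) (N j)) :
    (cnt A x : ℝ) ^ 2 * ∑ j ∈ range J, 1 / ((g : ℝ) ^ j * (N j : ℝ) ^ 2) ≤ 8 * K := by
  classical
  have hK0 : 0 ≤ K := le_trans (Nat.cast_nonneg _) (hK 0 (by omega))
  set F : Finset ℕ := {a ∈ range x | a ∈ A} with hF
  have hcoe : (F : Set ℕ) = A ∩ Set.Iio x := by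
    ext a
    simp [hF, and_comm]
  have h := energy_scales hg F ⌊K⌋₊ J N (by
    intro a ha b hb
    have ha' := (mem_filter.1 ha)
    have hb' := (mem_filter.1 hb)
    have hlt : a + b < 2 * x := by
      have := mem_range.1 ha'.1
      have := mem_range.1 hb'.1
      omega
    refine le_trans ?_ (Nat.le_floor (hK (a + b) hlt))
    unfold rep
    refine card_le_card ?_
    rintro ⟨c, d⟩ hcd
    simp only [hF, mem_filter, mem_product, mem_range, HasAntidiagonal.mem_antidiagonal] at hcd ⊢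
    tauto) (by
    intro j hj
    rw [hcoe]
    exact hN j hj)
  have hc : cnt A x = #F := by
    unfold cnt
    rw [hF]
  rw [hc]
  refine h.trans ?_
  have := Nat.floor_le hK0
  linarith

lemma covered_trivial (A : Set ℕ) (x L : ℕ) (hL : 1 ≤ L) : Covered (A ∩ Set.Iio x) L x := by
  refine ⟨(range x).image (fun a : ℕ => (a : ℤ)), card_image_le.trans (by simp), ?_⟩
  rintro a ⟨_, ha⟩
  refine ⟨a, mem_image.2 ⟨a, mem_range.2 ha, rfl⟩, le_rfl, ?_⟩
  have : (1 : ℤ) ≤ L := by exact_mod_cast hL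
  omega

lemma cnt_eq_zero_of_covered {A : Set ℕ} {x L : ℕ} (h : Covered (A ∩ Set.Iio x) L 0) :
    cnt A x = 0 := by
  classical
  obtain ⟨t, ht, h⟩ := h
  have : t = ∅ := by
    rw [← card_eq_zero]
    omega
  unfold cnt
  rw [card_eq_zero, eq_empty_iff_forall_notMem]
  intro a ha
  rw [mem_filter, mem_range] at ha
  obtain ⟨s, hs, _⟩ := h a ⟨ha.2, ha.1⟩
  simp [this] at hs

open Classical in
/-- There are few scales on which a set with bounded representation function is covered by few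
intervals. -/
theorem few_scales {g : ℕ} (hg : 4 ≤ g) (A : Set ℕ) {x : ℕ} (hx : 1 ≤ x) (K c M : ℝ)
    (hc : 0 < c) (hM : 0 < M)
    (hK : ∀ n < 2 * x, (rep A n : ℝ) ≤ K) (hA : c * √x ≤ cnt A x) (J : ℕ) :
    (#{j ∈ range J | ∃ N : ℕ, Covered (A ∩ Set.Iio x) (g ^ j) N ∧
      (N : ℝ) ≤ M * √((x : ℝ) / (g : ℝ) ^ j)} : ℝ) ≤ 8 * K * M ^ 2 / c ^ 2 := by
  have hg0 : (0 : ℝ) < g := by
    have : 0 < g := by omega
    exact_mod_cast this
  have hx0 : (0 : ℝ) < x := by exact_mod_cast hx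
  set S := {j ∈ range J | ∃ N : ℕ, Covered (A ∩ Set.Iio x) (g ^ j) N ∧
      (N : ℝ) ≤ M * √((x : ℝ) / (g : ℝ) ^ j)} with hS
  have hex : ∀ j, ∃ N : ℕ, Covered (A ∩ Set.Iio x) (g ^ j) N ∧
      (j ∈ S → (N : ℝ) ≤ M * √((x : ℝ) / (g : ℝ) ^ j)) := by
    intro j
    by_cases hj : j ∈ S
    · obtain ⟨N, h1, h2⟩ := (mem_filter.1 hj).2
      exact ⟨N, h1, fun _ => h2⟩
    · exact ⟨x, covered_trivial A x _ (Nat.one_le_pow _ _ (by omega)), fun h => absurd h hj⟩
  choose N hN1 hN2 using hex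
  have h1 := scales hg A hx J K N hK (fun j _ => hN1 j)
  have hcx : 0 < (cnt A x : ℝ) := lt_of_lt_of_le (by positivity) hA
  have h2 : ∑ j ∈ S, 1 / (M ^ 2 * x) ≤ ∑ j ∈ range J, 1 / ((g : ℝ) ^ j * (N j : ℝ) ^ 2) := by
    refine (sum_le_sum (fun j hj => ?_)).trans
      (sum_le_sum_of_subset_of_nonneg (filter_subset _ _) (fun j _ _ => by positivity))
    have hNj : 0 < N j := by
      rcases Nat.eq_zero_or_pos (N j) with h | h
      · exfalso
        have h3 := hN1 j
        rw [h] at h3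
        rw [cnt_eq_zero_of_covered h3] at hcx
        simp at hcx
      · exact h
    have hNj' : (0 : ℝ) < N j := by exact_mod_cast hNj
    refine one_div_le_one_div_of_le (by positivity) ?_
    have h4 : (N j : ℝ) ^ 2 ≤ (M * √((x : ℝ) / (g : ℝ) ^ j)) ^ 2 :=
      pow_le_pow_left₀ hNj'.le (hN2 j hj) 2
    rw [mul_pow, Real.sq_sqrt (by positivity)] at h4
    calc (g : ℝ) ^ j * (N j : ℝ) ^ 2 ≤ (g : ℝ) ^ j * (M ^ 2 * (x / (g : ℝ) ^ j)) :=
          mul_le_mul_of_nonneg_left h4 (by positivity)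
      _ = M ^ 2 * x := by
          field_simp
  rw [sum_const, nsmul_eq_mul] at h2
  have h3 : (c * √x) ^ 2 * (#S * (1 / (M ^ 2 * x))) ≤ 8 * K := by
    refine le_trans ?_ h1
    exact mul_le_mul (pow_le_pow_left₀ (by positivity) hA 2) h2 (by positivity) (by positivity)
  rw [mul_pow, Real.sq_sqrt hx0.le] at h3
  have h4 : c ^ 2 * x * (#S * (1 / (M ^ 2 * x))) = c ^ 2 * #S / M ^ 2 := by
    field_simp
  rw [h4, div_le_iff₀ (by positivity)] at h3
  rw [le_div_iff₀ (by positivity)]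
  linarith

/-- `A` is homogeneous: for all `1 ≤ L ≤ x` the part of `A` below `x` is covered by about as many
intervals of length `L` as `A` has elements below `x / L`, up to constants. -/
def Homogeneous (A : Set ℕ) : Prop :=
  ∃ B : ℕ, ∀ x L : ℕ, 1 ≤ L → L ≤ x → Covered (A ∩ Set.Iio x) L (B * cnt A (B * (x / L)))

/-- `A` is closed under division by `g` up to a bounded error. -/
def CoarselyClosed (g : ℕ) (A : Set ℕ) : Prop :=
  ∃ D : ℕ, ∀ a ∈ A, ∃ b ∈ A, |(a : ℤ) - g * b| ≤ D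

lemma cnt_mono (A : Set ℕ) {x y : ℕ} (h : x ≤ y) : cnt A x ≤ cnt A y := by
  classical
  unfold cnt
  refine card_le_card ?_
  intro a ha
  simp only [mem_filter, mem_range] at ha ⊢
  exact ⟨lt_of_lt_of_le ha.1 h, ha.2⟩

lemma cnt_le (A : Set ℕ) (x : ℕ) : cnt A x ≤ x := by
  classical
  unfold cnt
  exact (card_filter_le _ _).trans (by simp)

lemma iterate_closed {g D : ℕ} (hg : 2 ≤ g) {A : Set ℕ}
    (h : ∀ a ∈ A, ∃ b ∈ A, |(a : ℤ) - g * b| ≤ D) (j : ℕ) :
    ∀ a ∈ A, ∃ b ∈ A, |(a : ℤ) - g ^ j * b| ≤ D * (g ^ j - 1) := by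
  induction j with
  | zero => exact fun a ha => ⟨a, ha, by simp⟩
  | succ j ih =>
    intro a ha
    obtain ⟨b, hb, h1⟩ := ih a ha
    obtain ⟨e, he, h2⟩ := h b hb
    refine ⟨e, he, ?_⟩
    have h3 : (a : ℤ) - g ^ (j + 1) * e = (a - g ^ j * b) + g ^ j * (b - g * e) := by ring
    rw [h3]
    refine (abs_add_le _ _).trans ?_
    rw [abs_mul, abs_of_nonneg (by positivity : (0 : ℤ) ≤ (g : ℤ) ^ j)]
    have hgj : (0 : ℤ) < (g : ℤ) ^ j := by positivity
    have h4 : (g : ℤ) ^ j * |(b : ℤ) - g * e| ≤ g ^ j * D := mul_le_mul_of_nonneg_left h2 hgj.le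
    have h5 : (2 : ℤ) * g ^ j ≤ g ^ (j + 1) := by
      rw [pow_succ, mul_comm]
      exact mul_le_mul_of_nonneg_left (by exact_mod_cast hg) hgj.le
    have hD : (0 : ℤ) ≤ D := by positivity
    nlinarith [mul_le_mul_of_nonneg_left h5 hD]

/-- Sets coarsely closed under division are homogeneous. -/
theorem homogeneous_of_closed {g : ℕ} (hg : 2 ≤ g) {A : Set ℕ} (h : CoarselyClosed g A) :
    Homogeneous A := by
  classical
  obtain ⟨D, hD⟩ := h
  refine ⟨2 * g + 2 * D + 1, fun x L hL hx => ?_⟩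
  set j := Nat.log g L with hj
  have hj1 : g ^ j ≤ L := Nat.pow_log_le_self g (by omega)
  have hj2 : L < g ^ (j + 1) := Nat.lt_pow_succ_log_self (by omega) L
  set y := (2 * g + 2 * D + 1) * (x / L) with hy
  set T : Finset ℕ := {b ∈ range y | b ∈ A} with hT
  refine ⟨(T ×ˢ Finset.Icc (-(D : ℤ)) D).image (fun p => (g : ℤ) ^ j * (p.1 + p.2)), ?_, ?_⟩
  · refine card_image_le.trans ?_
    rw [card_product, Int.card_Icc, mul_comm]
    have : cnt A y = #T := by
      unfold cnt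
      rw [hT]
    rw [this]
    refine Nat.mul_le_mul ?_ le_rfl
    omega
  · rintro a ⟨ha, hax⟩
    obtain ⟨b, hb, h1⟩ := iterate_closed hg hD j a ha
    have hgj : (0 : ℤ) < (g : ℤ) ^ j := by positivity
    have hD0 : (0 : ℤ) ≤ D := by positivity
    rw [abs_le] at h1
    obtain ⟨h1, h2⟩ := h1
    set i : ℤ := (a : ℤ) / g ^ j - b with hi
    have h3 : (g : ℤ) ^ j * ((a : ℤ) / g ^ j) ≤ a := Int.mul_ediv_self_le hgj.ne'
    have h4 : (a : ℤ) < g ^ j * ((a : ℤ) / g ^ j) + g ^ j := Int.lt_mul_ediv_self_add hgj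
    have h5 : -(D : ℤ) ≤ i := by
      by_contra hcon
      have : i + 1 ≤ -D := by omega
      have h6 : (g : ℤ) ^ j * (i + 1) ≤ g ^ j * (-D) := mul_le_mul_of_nonneg_left this hgj.le
      rw [hi] at h6
      nlinarith
    have h6 : i ≤ D := by
      by_contra hcon
      have : (D : ℤ) + 1 ≤ i := by omega
      have h7 : (g : ℤ) ^ j * (D + 1) ≤ g ^ j * i := mul_le_mul_of_nonneg_left this hgj.le
      rw [hi] at h7
      nlinarith
    have hby : b < y := by
      have h7 : g ^ j * b ≤ a + D * g ^ j := by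
        have : ((g : ℤ) ^ j * b) ≤ a + D * g ^ j := by nlinarith
        exact_mod_cast this
      have hax' : a < x := hax
      have h8 : x < (x / L + 1) * L := by
        have := Nat.lt_div_mul_add (a := x) (b := L) (by omega)
        nlinarith
      have h9 : 1 ≤ x / L := Nat.div_pos hx (by omega)
      have h10 : (x / L + 1) * L ≤ (x / L + 1) * (g ^ j * g) := by
        refine Nat.mul_le_mul le_rfl ?_
        rw [← pow_succ]
        exact hj2.le
      have h11 : g ^ j * b < g ^ j * ((x / L + 1) * g + D) := by nlinarith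
      have h12 : b < (x / L + 1) * g + D := lt_of_mul_lt_mul_left h11 (Nat.zero_le _)
      rw [hy]
      nlinarith [Nat.mul_le_mul_left D h9, Nat.mul_le_mul_left g h9]
    refine ⟨(g : ℤ) ^ j * (b + i), mem_image.2 ⟨(b, i), ?_, rfl⟩, ?_, ?_⟩
    · rw [mem_product, mem_Icc]
      exact ⟨mem_filter.2 ⟨mem_range.2 hby, hb⟩, h5, h6⟩
    · rw [hi]
      simpa using h3
    · rw [hi]
      have h7 : ((g : ℤ) ^ j) ≤ L := by exact_mod_cast hj1
      have h8 : (b : ℤ) + ((a : ℤ) / g ^ j - b) = (a : ℤ) / g ^ j := by ring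
      rw [h8]
      linarith

end Q123.ET
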