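import Pool.Agent.Q123.ET.Fourier
import Pool.Agent.Q123.ET.Growth

/-!
# The moment inequality over a chain of windows
-/

namespace Q123.ET

open Finset ZMod

/-- `F` is covered by `N` windows: intersections of an interval of length `L` with a residue class
modulo `q`. -/
def CoveredW (F : Set ℕ) (q L N : ℕ) : Prop :=
  ∃ t : Finset (ℤ × ℤ), #t ≤ N ∧ ∀ a ∈ F, ∃ s ∈ t,
    s.1 ≤ (a : ℤ) ∧ (a : ℤ) < s.1 + L ∧ (q : ℤ) ∣ (a : ℤ) - s.2

/-- the number of pairs of elements which are close and congruent modulo `q` -/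
def ppw (F : Finset ℕ) (q L : ℕ) : ℕ :=
  #{p ∈ F ×ˢ F | ((p.1 : ℤ) - p.2).natAbs ≤ L ∧ (q : ℤ) ∣ (p.1 : ℤ) - p.2}

lemma card_sq_le_ppw (F : Finset ℕ) (q L N : ℕ) (h : CoveredW (F : Set ℕ) q L N) :
    (#F) ^ 2 ≤ N * ppw F q L := by
  classical
  obtain ⟨t, ht, hF⟩ := h
  choose! f hf using hF
  have h1 := sq_card_le F t f (fun s hs => (hf s (by simpa using hs)).1)
  refine h1.trans (Nat.mul_le_mul ht ?_)
  unfold ppw
  refine card_le_card ?_
  rintro ⟨a, b⟩ hab
  simp only [mem_filter, mem_product] at hab ⊢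
  obtain ⟨⟨ha, hb⟩, hab⟩ := hab
  refine ⟨⟨ha, hb⟩, ?_⟩
  have h2 := (hf a (by simpa using ha)).2
  have h3 := (hf b (by simpa using hb)).2
  rw [hab] at h2
  refine ⟨by omega, ?_⟩
  have := dvd_sub h2.2.2 h3.2.2
  have e : (a : ℤ) - b = ((a : ℤ) - (f b).2) - (b - (f b).2) := by ring
  rw [e]
  exact this

/-- A discrete Hardy inequality with exponent `h`, by a recursion. -/
lemma hardy_pow {h : ℕ} (hh : 2 ≤ h) (J : ℕ) (m A W : ℕ → ℝ) (hm : ∀ j < J, 0 < m j)
    (hmm : ∀ j, j + 1 < J → 4 * m (j + 1) ≤ m j) (hA : ∀ j, 0 ≤ A j) (hW : ∀ j, 0 ≤ W j)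
    (hAJ : A J = 0) (hAW : ∀ j < J, A j ≤ W j + A (j + 1)) :
    ∑ j ∈ range J, A j ^ h / m j ^ (h - 1) ≤ 2 ^ h * ∑ j ∈ range J, W j ^ h / m j ^ (h - 1) := by
  set a : ℕ → ℝ := fun j => if j < J then A j ^ h / m j ^ (h - 1) else 0 with ha
  set y : ℕ → ℝ := fun j => W j ^ h / m j ^ (h - 1) with hy
  have ha0 : ∀ j, 0 ≤ a j := by
    intro j
    simp only [ha]
    split_ifs with hj
    · have := hm j hj
      have := hA j
      positivity
    · exact le_rfl
  have hrec : ∀ j < J, a j ≤ 2 ^ (h - 1) * y j + 1 / 2 * a (j + 1) := by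
    intro j hj
    have hmj := hm j hj
    have h1 : A j ^ h ≤ 2 ^ (h - 1) * (W j ^ h + A (j + 1) ^ h) :=
      (pow_le_pow_left₀ (hA j) (hAW j hj) h).trans (add_pow_le (hW j) (hA (j + 1)) h)
    simp only [ha, hy]
    rw [if_pos hj]
    split_ifs with hj1
    · have hmj1 := hm (j + 1) hj1
      have h2 : A (j + 1) ^ h / m j ^ (h - 1) ≤
          A (j + 1) ^ h / (4 ^ (h - 1) * m (j + 1) ^ (h - 1)) := by
        refine div_le_div_of_nonneg_left (by have := hA (j + 1); positivity) (by positivity) ?_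
        rw [← mul_pow]
        exact pow_le_pow_left₀ (by positivity) (hmm j hj1) _
      have h3 : (2 : ℝ) ^ (h - 1) * (A (j + 1) ^ h / (4 ^ (h - 1) * m (j + 1) ^ (h - 1))) ≤
          1 / 2 * (A (j + 1) ^ h / m (j + 1) ^ (h - 1)) := by
        have e1 : (4 : ℝ) ^ (h - 1) = 2 ^ (h - 1) * 2 ^ (h - 1) := by
          rw [← mul_pow]
          norm_num
        have e2 : (2 : ℝ) ≤ 2 ^ (h - 1) := by
          calc (2 : ℝ) = 2 ^ 1 := by norm_num
            _ ≤ 2 ^ (h - 1) := pow_le_pow_right₀ (by norm_num) (by omega)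
        have hx : 0 ≤ A (j + 1) ^ h / m (j + 1) ^ (h - 1) := by
          have := hA (j + 1)
          positivity
        rw [e1]
        have e3 : (2 : ℝ) ^ (h - 1) * (A (j + 1) ^ h / (2 ^ (h - 1) * 2 ^ (h - 1) *
            m (j + 1) ^ (h - 1))) = 1 / 2 ^ (h - 1) * (A (j + 1) ^ h / m (j + 1) ^ (h - 1)) := by
          field_simp
        rw [e3]
        refine mul_le_mul_of_nonneg_right ?_ hx
        exact one_div_le_one_div_of_le (by norm_num) e2
      calc A j ^ h / m j ^ (h - 1) ≤ 2 ^ (h - 1) * (W j ^ h + A (j + 1) ^ h) / m j ^ (h - 1) :=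
            div_le_div_of_nonneg_right h1 (by positivity)
        _ = 2 ^ (h - 1) * (W j ^ h / m j ^ (h - 1)) +
            2 ^ (h - 1) * (A (j + 1) ^ h / m j ^ (h - 1)) := by ring
        _ ≤ 2 ^ (h - 1) * (W j ^ h / m j ^ (h - 1)) +
            2 ^ (h - 1) * (A (j + 1) ^ h / (4 ^ (h - 1) * m (j + 1) ^ (h - 1))) := by
            have := mul_le_mul_of_nonneg_left h2 (by positivity : (0 : ℝ) ≤ 2 ^ (h - 1))
            linarith
        _ ≤ _ := by linarith
    · have hjJ : j + 1 = J := by omega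
      rw [hjJ, hAJ, zero_pow (by omega), add_zero] at h1
      rw [mul_zero, add_zero]
      calc A j ^ h / m j ^ (h - 1) ≤ 2 ^ (h - 1) * W j ^ h / m j ^ (h - 1) :=
            div_le_div_of_nonneg_right h1 (by positivity)
        _ = _ := by ring
  have hsum : ∑ j ∈ range J, a j ≤ 2 ^ (h - 1) * ∑ j ∈ range J, y j +
      1 / 2 * ∑ j ∈ range J, a j := by
    have h1 : ∑ j ∈ range J, a (j + 1) ≤ ∑ j ∈ range J, a j := by
      have h2 := sum_range_succ' a J
      have h3 := sum_range_succ a J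
      have h4 : a J = 0 := by simp [ha]
      have h5 := ha0 0
      linarith
    calc ∑ j ∈ range J, a j ≤ ∑ j ∈ range J, (2 ^ (h - 1) * y j + 1 / 2 * a (j + 1)) :=
          sum_le_sum fun j hj => hrec j (mem_range.1 hj)
      _ = 2 ^ (h - 1) * ∑ j ∈ range J, y j + 1 / 2 * ∑ j ∈ range J, a (j + 1) := by
          rw [sum_add_distrib, mul_sum, mul_sum]
      _ ≤ _ := by linarith
  have e1 : (2 : ℝ) ^ h = 2 * 2 ^ (h - 1) := by
    rw [← pow_succ']
    congr 1
    omega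
  have e2 : ∑ j ∈ range J, A j ^ h / m j ^ (h - 1) = ∑ j ∈ range J, a j := by
    refine sum_congr rfl fun j hj => ?_
    simp only [ha]
    rw [if_pos (mem_range.1 hj)]
  rw [e2, e1]
  linarith

end Q123.ET
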